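import Pool.Agent.Lib.MP_305fdd_al.Su.Hon.Ctr

/-!
# MP_305fdd_al, closed surface groups: from a saturated splitting to an honest one-edge splitting

`hon`: if one edge group of a saturated splitting is cyclic then the group acts on a tree with one
orbit of edges, malnormal infinite cyclic edge stabilisers and finitely generated non-abelian vertex
stabilisers.
-/

set_option autoImplicit false

namespace Pool.Agent.SuH

open Matrix (SpecialLinearGroup)
open Pool.Agent.FrS Pool.Agent.SuUp Pool.Agent.SuX Pool.Agent.SuT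

variable {Γ : Type} [Group Γ] {F : Type} [Field F] [Algebra (ZMod 2) F]
  {ρ : Γ →* SpecialLinearGroup (Fin 2) F}

theorem zpowers_conj {C D : Subgroup Γ} {z t : Γ} (hC : C = Subgroup.zpowers z)
    (h : ∀ x, x ∈ D ↔ t⁻¹ * x * t ∈ C) : D = Subgroup.zpowers (t * z * t⁻¹) := by
  ext x
  rw [h, hC, Subgroup.mem_zpowers_iff, Subgroup.mem_zpowers_iff]
  refine exists_congr fun n => ?_
  rw [conj_zpow]
  constructor
  · intro h1
    rw [h1]
    group
  · intro h1
    rw [← h1]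
    group

/-- contraction of all edges but one -/
theorem one_left (hinj : Function.Injective ρ) (hT : ∀ g, tr ρ g = 0 → g = 1) (hLX : LX ρ) :
    ∀ (n : ℕ) (S : GG Γ), Nat.card S.E ≤ n → Sat S → ∀ e : S.E,
      (∃ z, S.C e = Subgroup.zpowers z) →
      ∃ S' : GG Γ, Sat S' ∧ ∃ e' : S'.E, (∀ f, f = e') ∧ ∃ z, S'.C e' = Subgroup.zpowers z := by
  intro n
  induction n with
  | zero =>
    intro S hn hS e
    exfalso
    have : Nonempty S.E := ⟨e⟩
    have := Nat.card_pos (α := S.E)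
    omega
  | succ n ih =>
    intro S hn hS e hz
    by_cases h : ∀ f, f = e
    · exact ⟨S, hS, e, h, hz⟩
    · push Not at h
      obtain ⟨f, hf⟩ := h
      obtain ⟨z, hz⟩ := hz
      have hlt : Nat.card {x : S.E // x ≠ f} < Nat.card S.E :=
        Finite.card_subtype_lt (x := f) (by simp)
      by_cases h0 : S.a f = S.b f
      · have hE : Nat.card (S.ctrL f).E = Nat.card {x : S.E // x ≠ f} := rfl
        exact ih (S.ctrL f) (by omega) (hS.ctrL hinj hT hLX f h0.symm) (S.lE f e hf.symm)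
          ⟨z, hz⟩
      · have hE : Nat.card (S.ctr f h0).E = Nat.card {x : S.E // x ≠ f} := rfl
        exact ih (S.ctr f h0) (by omega) (hS.ctr hinj hT hLX f h0) (S.cE f h0 e hf.symm)
          ⟨_, zpowers_conj hz (fun x => S.mem_ctr_C f h0 (S.cE f h0 e hf.symm) x)⟩

theorem reach_pth {S : GG Γ} (hS : S.UP) {e : S.E} (he : ∀ f, f = e) {u v : S.V} {g : Γ}
    (h : S.Pth u v g) : (XF S e).Reachable (pt S u 1) (pt S v g) := by
  induction h with
  | one => rfl
  | grp _ hx ih =>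
    rw [pt_mul S hx]
    exact ih
  | @fwd g f _ ih =>
    rw [he f] at ih ⊢
    exact ih.trans (adj0 hS e g).reachable
  | @bwd g f _ ih =>
    rw [he f] at ih ⊢
    have h1 := adj0 hS e (g * (S.s e)⁻¹)
    rw [inv_mul_cancel_right] at h1
    exact ih.trans h1.symm.reachable

theorem mem_stab {S : GG Γ} {v : S.V} {g h : Γ} :
    h ∈ MulAction.stabilizer Γ (pt S v g) ↔ g⁻¹ * h * g ∈ S.G v := by
  rw [MulAction.mem_stabilizer_iff, stab_pt]

/-- the one-edge case -/
theorem hon_one (hinj : Function.Injective ρ) (hT : ∀ g, tr ρ g = 0 → g = 1) (hLX : LX ρ)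
    (htf : ∀ (g : Γ) (n : ℕ), 0 < n → g ^ n = 1 → g = 1) {S : GG Γ} (hS : Sat S) {e : S.E}
    (he : ∀ f, f = e) {z : Γ} (hz : S.C e = Subgroup.zpowers z) :
    Spl Γ (XF S e) ∧ (XF S e).Adj (pt S (S.a e) 1) (pt S (S.b e) (S.s e)) ∧
      ∀ x y, (XF S e).Adj x y → ∃ g : Γ,
        (g • pt S (S.a e) 1 = x ∧ g • pt S (S.b e) (S.s e) = y) ∨
        (g • pt S (S.a e) 1 = y ∧ g • pt S (S.b e) (S.s e) = x) := by
  obtain ⟨k, _, ⟨B⟩⟩ := exists_bn hinj hT hS e
  have htor := tor_of hinj hT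
  have horb : ∀ x y, (XF S e).Adj x y → ∃ g : Γ,
        (g • pt S (S.a e) 1 = x ∧ g • pt S (S.b e) (S.s e) = y) ∨
        (g • pt S (S.a e) 1 = y ∧ g • pt S (S.b e) (S.s e) = x) := by
    rintro x y ⟨-, g, ⟨rfl, rfl⟩ | ⟨rfl, rfl⟩⟩
    · exact ⟨g, Or.inl ⟨by rw [smul_pt, mul_one], smul_pt S _ _ _⟩⟩
    · exact ⟨g, Or.inr ⟨by rw [smul_pt, mul_one], smul_pt S _ _ _⟩⟩
  have hconn : (XF S e).Preconnected := by
    have h1 : ∀ x, (XF S e).Reachable (pt S (S.a e) 1) x := by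
      intro x
      obtain ⟨v, g, rfl⟩ := pt_surj S x
      exact reach_pth hS.up he (hS.up.gen _ _ _)
    exact fun x y => (h1 x).symm.trans (h1 y)
  have hne : Nonempty (Vx S) := ⟨pt S (S.a e) 1⟩
  have hTA : TA Γ (XF S e) :=
    { tree := ⟨⟨hconn⟩, Bn.acyclic B⟩
      act := fun g x y h => XF_act S g x y h
      noinv := fun g x y h => noinv hS.up e g x y h }
  have hz1 : z ≠ 1 := by
    intro h
    apply hS.ne e
    rw [hz, h, Subgroup.zpowers_one_eq_bot]
  -- edge stabilisers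
  have hES : ∀ (g : Γ) (x : Γ), x ∈ ES Γ (pt S (S.a e) g) (pt S (S.b e) (g * S.s e)) ↔
      g⁻¹ * x * g ∈ S.C e := by
    intro g x
    rw [mem_ES, stab_pt, stab_pt]
    have e1 : (g * S.s e)⁻¹ * x * (g * S.s e) = (S.s e)⁻¹ * (g⁻¹ * x * g) * S.s e := by group
    rw [e1]
    constructor
    · rintro ⟨h1, h2⟩
      exact B.inter h1 h2
    · intro h
      exact ⟨S.Ca e h, S.Cb e _ h⟩
  have hmc : ∀ g : Γ, MC (ES Γ (pt S (S.a e) g) (pt S (S.b e) (g * S.s e))) := by
    intro g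
    have hab : ∀ x ∈ ES Γ (pt S (S.a e) g) (pt S (S.b e) (g * S.s e)),
        ∀ y ∈ ES Γ (pt S (S.a e) g) (pt S (S.b e) (g * S.s e)), x * y = y * x := by
      intro x hx y hy
      rw [hES] at hx hy
      have h1 := hS.ab _ _ hx _ hy
      calc x * y = g * (g⁻¹ * x * g * (g⁻¹ * y * g)) * g⁻¹ := by group
        _ = g * (g⁻¹ * y * g * (g⁻¹ * x * g)) * g⁻¹ := by rw [h1]
        _ = _ := by group
    refine ⟨⟨g * z * g⁻¹, ?_, zpowers_conj hz (hES g)⟩, ?_⟩
    · intro n hn h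
      rw [conj_pow] at h
      exact hz1 (htf z n hn (conj_eq_one_iff.1 h))
    · intro a ha ha1 h hh
      have h1 := cen_of_conj htor hab ha ha1 hh a ha
      have ha' := mem_ES.1 ha
      rw [mem_ES]
      exact ⟨fix_of_comm hinj hT hLX hS e ha'.1 ha1 h1 (hconn _ _),
        fix_of_comm hinj hT hLX hS e ha'.2 ha1 h1 (hconn _ _)⟩
  have h0 := adj0 hS.up e 1
  rw [one_mul] at h0
  refine ⟨⟨hTA, ?_, ?_, ?_⟩, h0, horb⟩
  · rintro x y ⟨-, g, ⟨rfl, rfl⟩ | ⟨rfl, rfl⟩⟩
    · exact hmc g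
    · rw [ES_symm]
      exact hmc g
  · intro x
    obtain ⟨v, g, rfl⟩ := pt_surj S x
    have h : MulAction.stabilizer Γ (pt S v g) =
        (S.G v).comap (MulAut.conj g⁻¹).toMonoidHom := by
      ext x
      rw [mem_stab, Subgroup.mem_comap]
      change _ ↔ g⁻¹ * x * g⁻¹⁻¹ ∈ _
      rw [inv_inv]
    rw [h]
    exact fg_comap_conj (hS.fgV v) _
  · intro x
    obtain ⟨v, g, rfl⟩ := pt_surj S x
    have hna := hS.na v
    unfold GG.NA at hna
    push Not at hna
    obtain ⟨a, ha, b, hb, hab⟩ := hna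
    refine ⟨g * a * g⁻¹, ?_, g * b * g⁻¹, ?_, ?_⟩
    · rw [mem_stab]
      have : g⁻¹ * (g * a * g⁻¹) * g = a := by group
      rwa [this]
    · rw [mem_stab]
      have : g⁻¹ * (g * b * g⁻¹) * g = b := by group
      rwa [this]
    · intro h
      apply hab
      have h1 : g * (a * b) * g⁻¹ = g * (b * a) * g⁻¹ := by
        calc g * (a * b) * g⁻¹ = g * a * g⁻¹ * (g * b * g⁻¹) := by group
          _ = g * b * g⁻¹ * (g * a * g⁻¹) := h
          _ = _ := by group
      exact mul_left_cancel (mul_right_cancel h1)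

/-- **HON.**  A saturated splitting with a cyclic edge group gives an action on a tree with one orbit
of edges, malnormal infinite cyclic edge stabilisers and finitely generated non-abelian vertex
stabilisers. -/
theorem hon (hinj : Function.Injective ρ) (hT : ∀ g, tr ρ g = 0 → g = 1) (hLX : LX ρ)
    (htf : ∀ (g : Γ) (n : ℕ), 0 < n → g ^ n = 1 → g = 1) {S : GG Γ} (hS : Sat S) (e : S.E)
    (hz : ∃ z, S.C e = Subgroup.zpowers z) :
    ∃ (V : Type) (_ : MulAction Γ V) (X : SimpleGraph V) (u v : V), Spl Γ X ∧ X.Adj u v ∧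
      ∀ x y, X.Adj x y → ∃ g : Γ, (g • u = x ∧ g • v = y) ∨ (g • u = y ∧ g • v = x) := by
  obtain ⟨S', hS', e', he', z, hz'⟩ := one_left hinj hT hLX _ S le_rfl hS e hz
  obtain ⟨h1, h2, h3⟩ := hon_one hinj hT hLX htf hS' he' hz'
  exact ⟨_, _, _, _, _, h1, h2, h3⟩

end Pool.Agent.SuH
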