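import Pool.Agent.Lib.MP_305fdd_al.Fr.S.TorOf
import Pool.Agent.Lib.MP_305fdd_al.Su.X.Abs
import Pool.Agent.Lib.MP_305fdd_al.Su.StmTree

/-!
# MP_305fdd_al, closed surface groups: saturated splittings (master text, 3.3)

`Sat S`: universal property, finitely generated vertex and edge groups, non-abelian vertex groups,
non-trivial abelian edge groups which are their own centralisers in both vertex groups.
-/

set_option autoImplicit false

namespace Pool.Agent.SuH

open Pool.Agent.FrS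

/-- saturated splittings -/
structure Sat {Γ : Type} [Group Γ] (S : GG Γ) : Prop where
  up : S.UP
  fgV : ∀ v, (S.G v).FG
  fgE : ∀ e, (S.C e).FG
  na : ∀ v, S.NA v
  ne : ∀ e, S.C e ≠ ⊥
  ab : ∀ e, ∀ x ∈ S.C e, ∀ y ∈ S.C e, x * y = y * x
  sa : ∀ e, ∀ x ∈ S.G (S.a e), (∀ c ∈ S.C e, x * c = c * x) → x ∈ S.C e
  sb : ∀ e, ∀ y ∈ S.G (S.b e),
    (∀ c ∈ S.C e, (S.s e * y * (S.s e)⁻¹) * c = c * (S.s e * y * (S.s e)⁻¹)) →
    S.s e * y * (S.s e)⁻¹ ∈ S.C e

end Pool.Agent.SuH
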