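import Pool.Agent.Lib.MP_305fdd_al.Su.Hon.Forest

/-!
# MP_305fdd_al, closed surface groups: saturated splittings can be bent at every edge
-/

set_option autoImplicit false

namespace Pool.Agent.SuH

open Matrix (SpecialLinearGroup)
open Pool.Agent.FrS Pool.Agent.SuUp

section

variable {Γ F : Type} [Group Γ] [Field F] [Algebra (ZMod 2) F]
  {ρ : Γ →* SpecialLinearGroup (Fin 2) F}

/-- the representation in the coordinates of a torus -/
noncomputable def mP {k : Type} [Field k] (i : F →+* k) (ρ : Γ →* SpecialLinearGroup (Fin 2) F)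
    (P : SpecialLinearGroup (Fin 2) k) : Γ →* SpecialLinearGroup (Fin 2) k where
  toFun x := P⁻¹ * bc i ρ x * P
  map_one' := by rw [map_one]; group
  map_mul' x y := by rw [map_mul]; group

theorem mP_apply {k : Type} [Field k] (i : F →+* k) (P : SpecialLinearGroup (Fin 2) k) (x : Γ) :
    mP i ρ P x = P⁻¹ * bc i ρ x * P := rfl

/-- triangular elements commute -/
theorem comm_of_tri (hT : ∀ g, tr ρ g = 0 → g = 1) {k : Type} [Field k] [CharP k 2]
    (i : F →+* k) (P : SpecialLinearGroup (Fin 2) k) {x y : Γ}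
    (h : ((mP i ρ P x).1 1 0 = 0 ∧ (mP i ρ P y).1 1 0 = 0) ∨
      ((mP i ρ P x).1 0 1 = 0 ∧ (mP i ρ P y).1 0 1 = 0)) : x * y = y * x := by
  have h2 : (2 : k) = 0 := CharTwo.two_eq_zero
  have key : (mP i ρ P (x * y * x⁻¹ * y⁻¹)).1.trace = 0 → x * y = y * x := by
    intro h
    rw [mP_apply, tr_conj'] at h
    have h1 : i (tr ρ (x * y * x⁻¹ * y⁻¹)) = 0 := by
      rw [← tr_bc]
      exact h
    rw [map_eq_zero] at h1
    have h3 := hT _ h1
    have h4 : x * y = (x * y * x⁻¹ * y⁻¹) * (y * x) := by group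
    rw [h4, h3, one_mul]
  apply key
  rw [map_mul, map_mul, map_mul, map_inv, map_inv]
  generalize mP i ρ P x = A at h
  generalize mP i ρ P y = B at h
  obtain ⟨a1, a2, a3, a4⟩ := sl_inv A
  obtain ⟨b1, b2, b3, b4⟩ := sl_inv B
  have dA := sl_det A
  have dB := sl_det B
  rw [sl_tr]
  rcases h with ⟨hx, hy⟩ | ⟨hx, hy⟩
  · simp only [sl_mul, a1, a2, a3, a4, b1, b2, b3, b4, hx, hy]
    linear_combination (A.1 0 0 * B.1 0 0 * A.1 1 1 * B.1 1 1) * h2
  · simp only [sl_mul, a1, a2, a3, a4, b1, b2, b3, b4, hx, hy]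
    linear_combination (A.1 0 0 * B.1 0 0 * A.1 1 1 * B.1 1 1) * h2

theorem DT_comm {k : Type} [Field k] (b : kˣ) : DT * mC (dg b) = mC (dg b) * DT := by
  have e : (mC (dg b)).1 = !![LaurentPolynomial.C (b : k), 0; 0,
      LaurentPolynomial.C ((b⁻¹ : kˣ) : k)] := by
    ext1 p q
    rw [mC_apply]
    fin_cases p <;> fin_cases q
    · rfl
    · exact map_zero _
    · exact map_zero _
    · rfl
  apply Subtype.ext
  change (DT (k := k)).1 * (mC (dg b)).1 = (mC (dg b)).1 * (DT (k := k)).1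
  rw [e]
  change !![LaurentPolynomial.T 1, 0; 0, LaurentPolynomial.T (-1)] * _ =
    _ * !![LaurentPolynomial.T 1, 0; 0, LaurentPolynomial.T (-1)]
  rw [Matrix.mul_fin_two, Matrix.mul_fin_two]
  simp only [mul_zero, zero_mul, add_zero, zero_add]
  rw [mul_comm (LaurentPolynomial.T 1), mul_comm (LaurentPolynomial.T (-1))]

/-- **Every edge of a saturated splitting can be bent.** -/
theorem exists_bn (hinj : Function.Injective ρ) (hT : ∀ g, tr ρ g = 0 → g = 1) {S : GG Γ}
    (hS : Sat S) (f : S.E) : ∃ (k : Type) (_ : Field k), Nonempty (Bn S f k) := by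
  have _ := charTwo_of_alg F
  let k := AlgebraicClosure F
  have _ : CharP k 2 := charTwo_of_alg k
  let i : F →+* k := algebraMap F k
  have htor := tor_of hinj hT
  obtain ⟨c, hc, hc1⟩ := (S.C f).ne_bot_iff_exists_ne_one.1 (hS.ne f) |>.elim fun c h =>
    (⟨c.1, c.2, fun h' => h (Subtype.ext h')⟩ : ∃ c : Γ, c ∈ S.C f ∧ c ≠ 1)
  obtain ⟨P, hP⟩ := exists_torus hT i hc1
  obtain ⟨bb, hbb⟩ := hP c rfl
  have hmc : mP i ρ P c = dg bb := hbb
  have hcen : ∀ x, x * c = c * x → ∀ d ∈ S.C f, x * d = d * x := fun x hx d hd =>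
    htor.trans x c d hc1 hx (hS.ab f c hc d hd)
  let r₀ : Γ →* SpecialLinearGroup (Fin 2) (LaurentPolynomial k) := mC.comp (mP i ρ P)
  have hD : ∀ d ∈ S.C f, DT * r₀ d = r₀ d * DT := by
    intro d hd
    obtain ⟨b, hb⟩ := hP d (hS.ab f d hd c hc)
    have h1 : r₀ d = mC (dg b) := congrArg mC hb
    rw [h1]
    exact DT_comm b
  obtain ⟨r, g, h1, -, h3⟩ := hS.up.bend r₀ f DT hD
  refine ⟨k, inferInstance, ⟨⟨mP i ρ P, r, g, h1, h3, ?_, ?_, ?_⟩⟩⟩
  · intro x hx h
    apply hS.sa f x hx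
    apply hcen
    refine comm_of_tri hT i P (Or.inl ⟨h, ?_⟩)
    rw [hmc, dg_10]
  · intro x hx h
    apply hS.sb f x hx
    apply hcen
    refine comm_of_tri hT i P (Or.inr ⟨h, ?_⟩)
    rw [hmc, dg_01]
  · intro _ x _ h
    generalize x * (S.s f)⁻¹ = y at h
    have h5 : y * c * y⁻¹ * c = c * (y * c * y⁻¹) := by
      refine comm_of_tri hT i P (Or.inl ⟨?_, by rw [hmc, dg_10]⟩)
      rw [map_mul, map_mul, map_inv, hmc]
      simp only [sl_mul, (sl_inv _).1, (sl_inv _).2.2.1, dg_00, dg_01, dg_10, dg_11, h]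
      ring
    have h6 : y⁻¹ * c = c * y⁻¹ := by
      apply htor.conj y⁻¹ c hc1
      rw [inv_inv]
      exact h5
    have h7 : y * c = c * y := by
      have : y * (y⁻¹ * c) * y = y * (c * y⁻¹) * y := by rw [h6]
      calc y * c = y * (c * y⁻¹) * y := by group
        _ = y * (y⁻¹ * c) * y := this.symm
        _ = c * y := by group
    obtain ⟨b, hb⟩ := hP y h7
    have h8 : (mP i ρ P y).1 1 1 = ((b⁻¹ : kˣ) : k) := by
      rw [mP_apply, hb, dg_11]
    rw [h] at h8
    exact (b⁻¹).ne_zero h8.symm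

end

end Pool.Agent.SuH
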