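import Pool.Agent.Lib.MP_305fdd_al.Su.Hon.One
import Pool.Agent.Lib.MP_305fdd_al.Fr.S.Ctr

/-!
# MP_305fdd_al, closed surface groups: contractions of saturated splittings are saturated
-/

set_option autoImplicit false

namespace Pool.Agent.SuH

open Matrix (SpecialLinearGroup)
open Pool.Agent.FrS Pool.Agent.SuUp Pool.Agent.SuX

variable {Γ : Type} [Group Γ]

/-- saturation of a collapse -/
theorem sat_of {S S' : GG Γ} (hS : Sat S) (hup : S'.UP) (φ : S.V → S'.V) (τ : S.V → Γ)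
    (E : S'.E → S.E) (hφ : ∀ v', ∃ v, φ v = v')
    (hG : ∀ v, ∀ x ∈ S.G v, τ v * x * (τ v)⁻¹ ∈ S'.G (φ v))
    (hfg : ∀ v', (S'.G v').FG)
    (ha : ∀ e', S'.a e' = φ (S.a (E e'))) (hb : ∀ e', S'.b e' = φ (S.b (E e')))
    (hs : ∀ e', S'.s e' = τ (S.a (E e')) * S.s (E e') * (τ (S.b (E e')))⁻¹)
    (hC : ∀ e' x, x ∈ S'.C e' ↔ (τ (S.a (E e')))⁻¹ * x * τ (S.a (E e')) ∈ S.C (E e'))
    (K : ∀ v, ∀ c ∈ S.G v, c ≠ 1 → ∀ x ∈ S'.G (φ v),
      x * (τ v * c * (τ v)⁻¹) = (τ v * c * (τ v)⁻¹) * x → (τ v)⁻¹ * x * τ v ∈ S.G v) :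
    Sat S' where
  up := hup
  fgV := hfg
  fgE e' := by
    have h : S'.C e' = (S.C (E e')).comap (MulAut.conj (τ (S.a (E e')))⁻¹).toMonoidHom := by
      ext x
      rw [hC, Subgroup.mem_comap]
      change _ ↔ (τ (S.a (E e')))⁻¹ * x * (τ (S.a (E e')))⁻¹⁻¹ ∈ _
      rw [inv_inv]
    rw [h]
    exact fg_comap_conj (hS.fgE _) _
  na v' h := by
    obtain ⟨v, rfl⟩ := hφ v'
    refine hS.na v fun x hx y hy => ?_
    have h1 := h _ (hG v x hx) _ (hG v y hy)
    have h2 : x * y = (τ v)⁻¹ * (τ v * x * (τ v)⁻¹ * (τ v * y * (τ v)⁻¹)) * τ v := by group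
    rw [h2, h1]
    group
  ne e' h := by
    obtain ⟨c, hc⟩ := (Subgroup.ne_bot_iff_exists_ne_one).1 (hS.ne (E e'))
    have h1 : τ (S.a (E e')) * c * (τ (S.a (E e')))⁻¹ ∈ S'.C e' := by
      rw [hC]
      have h2 : (τ (S.a (E e')))⁻¹ * (τ (S.a (E e')) * c * (τ (S.a (E e')))⁻¹) *
        τ (S.a (E e')) = c := by group
      rw [h2]
      exact c.2
    rw [h, Subgroup.mem_bot, mul_inv_eq_one, mul_eq_left] at h1
    exact hc (Subtype.ext h1)
  ab e' x hx y hy := by
    rw [hC] at hx hy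
    have h1 := hS.ab _ _ hx _ hy
    generalize τ (S.a (E e')) = t at h1
    have h2 : x * y = t * (t⁻¹ * x * t * (t⁻¹ * y * t)) * t⁻¹ := by group
    rw [h2, h1]
    group
  sa e' x hx h := by
    obtain ⟨c, hc⟩ := (Subgroup.ne_bot_iff_exists_ne_one).1 (hS.ne (E e'))
    have hcc : (c : Γ) ≠ 1 := fun h => hc (Subtype.ext h)
    have h1 : ∀ d ∈ S.C (E e'), x * (τ (S.a (E e')) * d * (τ (S.a (E e')))⁻¹) =
        (τ (S.a (E e')) * d * (τ (S.a (E e')))⁻¹) * x := by
      intro d hd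
      apply h
      rw [hC]
      have h2 : (τ (S.a (E e')))⁻¹ * (τ (S.a (E e')) * d * (τ (S.a (E e')))⁻¹) *
        τ (S.a (E e')) = d := by group
      rw [h2]
      exact hd
    rw [hC]
    rw [ha] at hx
    refine hS.sa _ _ (K _ c (S.Ca _ c.2) hcc x hx (h1 c c.2)) ?_
    intro d hd
    have h2 := h1 d hd
    generalize τ (S.a (E e')) = t at h2
    calc t⁻¹ * x * t * d = t⁻¹ * (x * (t * d * t⁻¹)) * t := by group
      _ = t⁻¹ * (t * d * t⁻¹ * x) * t := by rw [h2]
      _ = _ := by group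
  sb e' y hy h := by
    obtain ⟨c, hc⟩ := (Subgroup.ne_bot_iff_exists_ne_one).1 (hS.ne (E e'))
    have hcc : (c : Γ) ≠ 1 := fun h => hc (Subtype.ext h)
    have h1 : ∀ d ∈ S.C (E e'), (S.s (E e') * ((τ (S.b (E e')))⁻¹ * y * τ (S.b (E e'))) *
        (S.s (E e'))⁻¹) * d = d * (S.s (E e') * ((τ (S.b (E e')))⁻¹ * y * τ (S.b (E e'))) *
        (S.s (E e'))⁻¹) := by
      intro d hd
      have h2 := h (τ (S.a (E e')) * d * (τ (S.a (E e')))⁻¹) (by
        rw [hC]
        have h2 : (τ (S.a (E e')))⁻¹ * (τ (S.a (E e')) * d * (τ (S.a (E e')))⁻¹) *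
          τ (S.a (E e')) = d := by group
        rw [h2]
        exact hd)
      rw [hs] at h2
      generalize τ (S.a (E e')) = t at h2
      generalize τ (S.b (E e')) = u at h2 ⊢
      generalize S.s (E e') = s at h2 ⊢
      calc s * (u⁻¹ * y * u) * s⁻¹ * d = t⁻¹ * (t * s * u⁻¹ * y * (t * s * u⁻¹)⁻¹ *
            (t * d * t⁻¹)) * t := by group
        _ = t⁻¹ * (t * d * t⁻¹ * (t * s * u⁻¹ * y * (t * s * u⁻¹)⁻¹)) * t := by rw [h2]
        _ = _ := by group
    rw [hb] at hy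
    have h3 := K (S.b (E e')) _ (S.Cb _ c c.2) (by
      intro h4
      apply hcc
      have h5 : (c : Γ) = S.s (E e') * ((S.s (E e'))⁻¹ * c * S.s (E e')) * (S.s (E e'))⁻¹ := by
        group
      rw [h5, h4]
      group) y hy (by
      have h2 := h1 c c.2
      generalize τ (S.b (E e')) = u at h2 ⊢
      generalize S.s (E e') = s at h2 ⊢
      calc y * (u * (s⁻¹ * c * s) * u⁻¹) = u * s⁻¹ * ((s * (u⁻¹ * y * u) * s⁻¹) * c) * s * u⁻¹ := by
            group
        _ = u * s⁻¹ * (c * (s * (u⁻¹ * y * u) * s⁻¹)) * s * u⁻¹ := by rw [h2]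
        _ = _ := by group)
    have h6 := hS.sb _ _ h3 h1
    rw [hC, hs]
    have h7 : (τ (S.a (E e')))⁻¹ * (τ (S.a (E e')) * S.s (E e') * (τ (S.b (E e')))⁻¹ * y *
        (τ (S.a (E e')) * S.s (E e') * (τ (S.b (E e')))⁻¹)⁻¹) * τ (S.a (E e')) =
        S.s (E e') * ((τ (S.b (E e')))⁻¹ * y * τ (S.b (E e'))) * (S.s (E e'))⁻¹ := by group
    rw [h7]
    exact h6

section

variable {F : Type} [Field F] [Algebra (ZMod 2) F] {ρ : Γ →* SpecialLinearGroup (Fin 2) F}

/-- the two ends of the edge are adjacent in the forest -/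
theorem adj0 {S : GG Γ} (hS : S.UP) (f : S.E) (g : Γ) :
    (XF S f).Adj (pt S (S.a f) g) (pt S (S.b f) (g * S.s f)) := by
  refine ⟨fun h => ?_, g, Or.inl ⟨rfl, rfl⟩⟩
  have hl := pt_idx S h
  obtain ⟨r, w, hr1, hr2⟩ := loop_rep hS f hl
  rw [← hl, pt_eq] at h
  have h1 := hr1 _ _ h
  rw [inv_mul_cancel_left, hr2] at h1
  refine DT_pow_ne (ZMod 2) one_pos ?_
  rw [pow_one]
  exact conj_eq_one_iff.1 h1

theorem reach_mul {S : GG Γ} {f : S.E} {p q r : Vx S} (g : Γ) (h : (XF S f).Reachable p q)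
    (h1 : g • q = r) : (XF S f).Reachable (g • p) r := by
  rw [← h1]
  obtain ⟨w⟩ := h
  let φ : XF S f →g XF S f := ⟨fun v => g • v, fun {a b} h => XF_act S g a b h⟩
  exact ⟨w.map φ⟩

/-- if `H` is generated by elements which move `p` in its component, then so do all elements -/
theorem reach_closure {S : GG Γ} {f : S.E} {p : Vx S} {X : Set Γ}
    (h : ∀ x ∈ X, (XF S f).Reachable p (x • p)) :
    ∀ x ∈ Subgroup.closure X, (XF S f).Reachable p (x • p) := by
  intro x hx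
  induction hx using Subgroup.closure_induction with
  | mem x hx => exact h x hx
  | one => rw [one_smul]
  | mul x y _ _ hx hy =>
    refine hx.trans ?_
    exact reach_mul x hy (smul_smul x y p)
  | inv x _ hx =>
    have := reach_mul x⁻¹ hx (r := p) (by rw [smul_smul, inv_mul_cancel, one_smul])
    exact this.symm

/-- contraction of an edge with different ends -/
theorem Sat.ctr (hinj : Function.Injective ρ) (hT : ∀ g, tr ρ g = 0 → g = 1) (hLX : LX ρ)
    {S : GG Γ} (hS : Sat S) (f : S.E) (h0 : S.a f ≠ S.b f) : Sat (S.ctr f h0) := by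
  -- the group of the new vertex moves the points in their component
  have hreach : ∀ x ∈ S.G (S.a f) ⊔ (S.G (S.b f)).comap (MulAut.conj (S.s f)⁻¹).toMonoidHom,
      (XF S f).Reachable (pt S (S.a f) 1) (x • pt S (S.a f) 1) := by
    rw [Subgroup.sup_eq_closure]
    apply reach_closure
    have e0 := adj0 hS.up f 1
    rintro x (hx | hx)
    · have : x • pt S (S.a f) 1 = pt S (S.a f) 1 := by
        rw [stab_pt]
        simpa using hx
      rw [this]
    · have hx' : (S.s f)⁻¹ * x * (S.s f)⁻¹⁻¹ ∈ S.G (S.b f) := hx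
      rw [inv_inv] at hx'
      have h1 : x • pt S (S.b f) (1 * S.s f) = pt S (S.b f) (1 * S.s f) := by
        rw [stab_pt, one_mul]
        exact hx'
      exact e0.reachable.trans (reach_mul x e0.reachable h1).symm
  refine sat_of hS (S.ctr_up f h0 hS.up) (S.cφ f h0) (S.cτ f) (S.cF f h0)
    (fun v' => ⟨_, S.cφ_cσ f h0 v'⟩) (S.le_ctr_G f h0) ?_ (S.ctr_a f h0) (S.ctr_b f h0)
    (S.ctr_s f h0) (S.mem_ctr_C f h0) ?_
  · intro w
    obtain ⟨v, rfl⟩ : ∃ v, S.cφ f h0 v = w := ⟨_, S.cφ_cσ f h0 w⟩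
    by_cases h : v = S.a f ∨ v = S.b f
    · have hw : S.cφ f h0 v = S.cφ f h0 (S.a f) := by
        rcases h with rfl | rfl
        · rfl
        · exact S.cφ_b f h0
      rw [hw, GG.ctr_G_a]
      exact (hS.fgV _).sup (fg_comap_conj (hS.fgV _) _)
    · push Not at h
      rw [GG.ctr_G_ne _ _ _ h.1 h.2]
      exact hS.fgV v
  · intro v c hc hc1 x hx hcx
    by_cases hb : v = S.b f
    · subst hb
      rw [S.ctr_G_b f h0] at hx
      rw [S.cτ_b] at hcx ⊢
      have e0 := adj0 hS.up f 1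
      have h1 : (XF S f).Reachable (pt S (S.b f) (1 * S.s f)) (x • pt S (S.b f) (1 * S.s f)) :=
        e0.symm.reachable.trans ((hreach x hx).trans (reach_mul x e0.reachable rfl))
      have h2 := fix_of_comm hinj hT hLX hS f (x := pt S (S.b f) (1 * S.s f))
        (w := S.s f * c * (S.s f)⁻¹) (h := x) (by
          rw [stab_pt, one_mul]
          have : (S.s f)⁻¹ * (S.s f * c * (S.s f)⁻¹) * S.s f = c := by group
          rw [this]
          exact hc) (fun h => hc1 (conj_eq_one_iff.1 h)) hcx h1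
      rw [stab_pt, one_mul] at h2
      exact h2
    · rw [S.cτ_ne f hb] at hcx ⊢
      rw [one_mul, inv_one, mul_one] at hcx
      rw [inv_one, one_mul, mul_one]
      by_cases ha : v = S.a f
      · subst ha
        rw [S.ctr_G_a f h0] at hx
        have h2 := fix_of_comm hinj hT hLX hS f (x := pt S (S.a f) 1)
          (w := c) (h := x) (by
            rw [stab_pt]
            simpa using hc) hc1 hcx (hreach x hx)
        rw [stab_pt] at h2
        simpa using h2
      · rw [GG.ctr_G_ne _ _ _ ha hb] at hx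
        exact hx

/-- contraction of a loop -/
theorem Sat.ctrL (hinj : Function.Injective ρ) (hT : ∀ g, tr ρ g = 0 → g = 1) (hLX : LX ρ)
    {S : GG Γ} (hS : Sat S) (f : S.E) (h0 : S.b f = S.a f) : Sat (S.ctrL f) := by
  have hreach : ∀ x ∈ S.G (S.a f) ⊔ Subgroup.zpowers (S.s f),
      (XF S f).Reachable (pt S (S.a f) 1) (x • pt S (S.a f) 1) := by
    rw [Subgroup.sup_eq_closure]
    intro x hx
    have hle : Subgroup.closure ((S.G (S.a f) : Set Γ) ∪ (Subgroup.zpowers (S.s f) : Set Γ)) ≤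
        Subgroup.closure ((S.G (S.a f) : Set Γ) ∪ {S.s f}) := by
      rw [Subgroup.closure_le]
      rintro y (hy | hy)
      · exact Subgroup.subset_closure (Or.inl hy)
      · obtain ⟨n, rfl⟩ := Subgroup.mem_zpowers_iff.1 hy
        have h1 : S.s f ∈ Subgroup.closure ((S.G (S.a f) : Set Γ) ∪ {S.s f}) :=
          Subgroup.subset_closure (Or.inr rfl)
        exact zpow_mem h1 n
    refine reach_closure ?_ x (hle hx)
    have e0 := adj0 hS.up f 1
    rintro x (hx | hx)
    · have : x • pt S (S.a f) 1 = pt S (S.a f) 1 := by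
        rw [stab_pt]
        simpa using hx
      rw [this]
    · rw [Set.mem_singleton_iff] at hx
      rw [hx, smul_pt, mul_one]
      rw [h0, one_mul] at e0
      exact e0.reachable
  refine sat_of hS (S.ctrL_up f h0 hS.up) (S.lV f) (fun _ => 1) (S.lF f)
    (fun v' => ⟨_, S.lV_lW f v'⟩) ?_ ?_ (S.ctrL_a f) (S.ctrL_b f)
    ?_ ?_ ?_
  · intro v x hx
    rw [one_mul, inv_one, mul_one]
    exact S.le_ctrL_G f v hx
  · intro w
    obtain ⟨v, rfl⟩ : ∃ v, S.lV f v = w := ⟨_, S.lV_lW f w⟩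
    by_cases h : v = S.a f
    · subst h
      rw [GG.ctrL_G_a]
      exact (hS.fgV _).sup ⟨{S.s f}, by simp [Subgroup.zpowers_eq_closure]⟩
    · rw [GG.ctrL_G_ne _ _ h]
      exact hS.fgV v
  · intro e'
    rw [S.ctrL_s f, one_mul, inv_one, mul_one]
  · intro e' x
    rw [S.ctrL_C f, inv_one, one_mul, mul_one]
  · intro v c hc hc1 x hx hcx
    rw [one_mul, inv_one, mul_one] at hcx
    rw [inv_one, one_mul, mul_one]
    by_cases ha : v = S.a f
    · subst ha
      rw [S.ctrL_G_a f] at hx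
      have h2 := fix_of_comm hinj hT hLX hS f (x := pt S (S.a f) 1)
        (w := c) (h := x) (by
          rw [stab_pt]
          simpa using hc) hc1 hcx (hreach x hx)
      rw [stab_pt] at h2
      simpa using h2
    · rw [GG.ctrL_G_ne _ _ ha] at hx
      exact hx

end

end Pool.Agent.SuH
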