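import Pool.Agent.Lib.MP_305fdd_al.Su.Hon.Bn

/-!
# MP_305fdd_al, closed surface groups: centralisers and the Bass-Serre forest
-/

set_option autoImplicit false

namespace Pool.Agent.SuH

open Matrix (SpecialLinearGroup)
open Pool.Agent.FrS Pool.Agent.SuUp

section gen

variable {G : Type} [Group G] {V : Type} [MulAction G V] {X : SimpleGraph V}

/-- an element which fixes the ends of a path in a forest fixes the path -/
theorem fix_path (hac : X.IsAcyclic) (hact : ∀ (g : G) (x y : V), X.Adj x y → X.Adj (g • x) (g • y))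
    {x y : V} (p : X.Walk x y) (hp : p.IsPath) {w : G} (hx : w • x = x) (hy : w • y = y) (i : ℕ) :
    w • p.getVert i = p.getVert i := by
  let φ : X →g X := ⟨fun v => w • v, fun {a b} h => hact w a b h⟩
  have h1 : (p.map φ).IsPath := hp.map (f := φ) (fun a b h => MulAction.injective w h)
  let q : X.Walk x y := (p.map φ).copy hx hy
  have hq : q.IsPath := by
    simp only [q]
    rw [SimpleGraph.Walk.isPath_copy]
    exact h1
  have h2 : q = p := congrArg Subtype.val (hac.path_unique ⟨q, hq⟩ ⟨p, hp⟩)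
  have h3 : q.getVert i = w • p.getVert i := by
    simp only [q]
    rw [SimpleGraph.Walk.getVert_copy, SimpleGraph.Walk.getVert_map]
    rfl
  rw [← h3, h2]

/-- if nontrivial elements fix at most one edge at every vertex, then the centraliser of an element
which fixes `x` fixes `x` (as far as it stays in the component) -/
theorem fix_of_comm' (hac : X.IsAcyclic)
    (hact : ∀ (g : G) (x y : V), X.Adj x y → X.Adj (g • x) (g • y))
    (hinv : ∀ (g : G) (x y : V), X.Adj x y → ¬ (g • x = y ∧ g • y = x))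
    (h1 : ∀ x y z, X.Adj x y → X.Adj x z → y ≠ z → ∀ w : G, w • x = x → w • y = y → w • z = z →
      w = 1) {w h : G} {x : V} (hw : w • x = x) (hw1 : w ≠ 1) (hc : h * w = w * h)
    (hr : X.Reachable x (h • x)) : h • x = x := by
  by_contra hne
  obtain ⟨p, hp⟩ := hr.exists_isPath
  have hy : w • h • x = h • x := by rw [smul_smul, ← hc, ← smul_smul, hw]
  have hfix := fix_path hac hact p hp hw hy
  have hnil : ¬ p.Nil := fun hn => hne hn.eq.symm
  have hlen : 0 < p.length := by
    rw [← SimpleGraph.Walk.not_nil_iff_lt_length]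
    exact hnil
  have h0 : p.getVert 0 = x := p.getVert_zero
  have a1 : X.Adj x (p.getVert 1) := by
    have := p.adj_getVert_succ hlen
    rwa [h0] at this
  rcases Nat.lt_or_ge 1 p.length with h2 | h2
  · have a2 := p.adj_getVert_succ h2
    refine hw1 (h1 (p.getVert 1) x (p.getVert 2) a1.symm a2 ?_ w (hfix 1) hw (hfix 2))
    intro e
    have e2 : p.getVert 0 = p.getVert 2 := by rw [h0]; exact e
    have := hp.getVert_injOn (show (0 : ℕ) ∈ {i | i ≤ p.length} by simp)
      (show (2 : ℕ) ∈ {i | i ≤ p.length} by simp; omega) e2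
    omega
  · have hl : p.length = 1 := by omega
    have e1 : p.getVert 1 = h • x := by
      rw [← hl]
      exact p.getVert_length
    rw [e1] at a1
    have a2 := hact h _ _ a1
    refine hw1 (h1 (h • x) x (h • h • x) a1.symm a2 ?_ w hy hw ?_)
    · intro e
      exact hinv h x (h • x) a1 ⟨rfl, e.symm⟩
    · rw [smul_smul w h, ← hc, ← smul_smul, hy]

end gen

section loop

variable {Γ : Type} [Group Γ]

/-- a representation which is trivial on all vertex groups and maps the stable letter of the loop `f`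
to a conjugate of `DT` -/
theorem loop_rep {S : GG Γ} (hS : S.UP) (f : S.E) (hl : S.a f = S.b f) :
    ∃ (r : Γ →* SpecialLinearGroup (Fin 2) (LaurentPolynomial (ZMod 2)))
      (g : SpecialLinearGroup (Fin 2) (LaurentPolynomial (ZMod 2))),
      (∀ v, ∀ x ∈ S.G v, r x = 1) ∧ r (S.s f) = g * DT * g⁻¹ := by
  let F : GG.Fam S (SpecialLinearGroup (Fin 2) (LaurentPolynomial (ZMod 2))) :=
    { r := fun _ _ => 1
      t := fun e => if e = f then DT else 1
      mul := fun _ _ _ _ _ => (mul_one 1).symm
      cm := by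
        intro e c _
        rw [mul_one, mul_inv_cancel] }
  obtain ⟨r, g, hF⟩ := hS.ext _ F
  refine ⟨r, g (S.a f), ?_, ?_⟩
  · intro v x hx
    have h : 1 = (g v)⁻¹ * r x * g v := hF.vtx v x hx
    have h2 : r x = g v * ((g v)⁻¹ * r x * g v) * (g v)⁻¹ := by group
    rw [h2, ← h, mul_one, mul_inv_cancel]
  · have h := hF.edg f
    have h1 : F.t f = DT := if_pos rfl
    rw [h1, ← hl] at h
    rw [h]
    group

theorem DT_pow (k : Type) [Field k] (n : ℕ) :
    ((DT (k := k)) ^ n).1 0 0 = LaurentPolynomial.T n ∧ ((DT (k := k)) ^ n).1 1 0 = 0 := by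
  induction n with
  | zero =>
    constructor
    · rw [pow_zero]
      exact LaurentPolynomial.T_zero.symm
    · rw [pow_zero]
      rfl
  | succ n ih =>
    have e : ((DT (k := k)) ^ (n + 1)).1 = ((DT (k := k)) ^ n).1 *
        !![LaurentPolynomial.T 1, 0; 0, LaurentPolynomial.T (-1)] := by
      rw [pow_succ]
      rfl
    constructor
    · rw [e, Matrix.mul_apply, Fin.sum_univ_two, ih.1]
      simp only [Matrix.of_apply, Matrix.cons_val', Matrix.cons_val_zero, Matrix.cons_val_one,
        mul_zero, add_zero, Matrix.cons_val_fin_one]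
      rw [← LaurentPolynomial.T_add]
      push_cast
      rfl
    · rw [e, Matrix.mul_apply, Fin.sum_univ_two, ih.2]
      simp

theorem DT_pow_ne (k : Type) [Field k] {n : ℕ} (hn : 0 < n) : (DT (k := k)) ^ n ≠ 1 := by
  intro h
  have h1 := (DT_pow k n).1
  rw [h] at h1
  have h2 : (1 : LaurentPolynomial k) = LaurentPolynomial.T n := h1
  rw [← LaurentPolynomial.T_zero] at h2
  have h3 := congrArg (fun p : LaurentPolynomial k => p.coeff 0) h2
  simp only [LaurentPolynomial.T_apply, if_true] at h3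
  rw [if_neg (by omega)] at h3
  exact one_ne_zero h3

/-- no inversions -/
theorem noinv {S : GG Γ} (hS : S.UP) (f : S.E) (g : Γ) (x y : Vx S) (h : (XF S f).Adj x y) :
    ¬ (g • x = y ∧ g • y = x) := by
  wlog hxy : ∃ u, x = pt S (S.a f) u ∧ y = pt S (S.b f) (u * S.s f) generalizing x y
  · have h' := h
    obtain ⟨-, u, h1 | h1⟩ := h'
    · exact fun _ => hxy ⟨u, h1⟩
    · rintro ⟨h2, h3⟩
      exact this y x h.symm ⟨u, h1⟩ ⟨h3, h2⟩
  obtain ⟨u, rfl, rfl⟩ := hxy
  rintro ⟨h1, h2⟩
  rw [smul_pt] at h1 h2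
  have hl : S.a f = S.b f := pt_idx S h1
  obtain ⟨r, w, hr1, hr2⟩ := loop_rep hS f hl
  rw [← hl] at h1 h2
  rw [pt_eq] at h1 h2
  have e1 := hr1 _ _ h1
  have e2 := hr1 _ _ h2
  simp only [map_mul, map_inv, hr2] at e1 e2
  have e3 : r g * r u = r u * (w * DT * w⁻¹) := by
    have := inv_mul_eq_one.1 e1
    exact this
  have e4 : r g * (r u * (w * DT * w⁻¹)) = r u := inv_mul_eq_one.1 e2
  rw [← mul_assoc, e3] at e4
  have e5 : (w * DT * w⁻¹) * (w * DT * w⁻¹) = 1 := by
    have : r u * ((w * DT * w⁻¹) * (w * DT * w⁻¹)) = r u := by rw [← mul_assoc]; exact e4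
    exact mul_eq_left.1 this
  have e6 : (DT (k := ZMod 2)) ^ 2 = 1 := by
    have e7 : w * (DT ^ 2) * w⁻¹ = 1 := by
      rw [pow_two]
      rw [← e5]
      group
    exact conj_eq_one_iff.1 e7
  exact DT_pow_ne _ two_pos e6

end loop

end Pool.Agent.SuH
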