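import Pool.Agent.Lib.MP_305fdd_al.Su.Hon.Ht
import Pool.Agent.Lib.MP_305fdd_al.Su.Hon.Defs

/-!
# MP_305fdd_al, closed surface groups: the Bass-Serre forest of one edge of a splitting
-/

set_option autoImplicit false

namespace Pool.Agent.SuH

open Matrix (SpecialLinearGroup)
open Pool.Agent.FrS Pool.Agent.SuUp

section vx

variable {Γ : Type} [Group Γ] (S : GG Γ)

/-- the vertices of the Bass-Serre forest -/
def Vx : Type := Σ v : S.V, Γ ⧸ S.G v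

/-- the vertex `g G_v` -/
def pt (v : S.V) (g : Γ) : Vx S := ⟨v, (g : Γ ⧸ S.G v)⟩

theorem pt_surj (x : Vx S) : ∃ v g, x = pt S v g := by
  obtain ⟨v, q⟩ := x
  obtain ⟨g, rfl⟩ := QuotientGroup.mk_surjective q
  exact ⟨v, g, rfl⟩

theorem pt_eq {v : S.V} {g h : Γ} : pt S v g = pt S v h ↔ g⁻¹ * h ∈ S.G v := by
  rw [← QuotientGroup.eq]
  constructor
  · intro h1
    exact eq_of_heq (Sigma.mk.inj h1).2
  · intro h1
    unfold pt
    rw [h1]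

theorem pt_idx {v w : S.V} {g h : Γ} (e : pt S v g = pt S w h) : v = w :=
  congrArg Sigma.fst e

theorem pt_mul {v : S.V} {g x : Γ} (hx : x ∈ S.G v) : pt S v (g * x) = pt S v g := by
  rw [eq_comm, pt_eq]
  simpa using hx

instance : MulAction Γ (Vx S) where
  smul g x := ⟨x.1, g • x.2⟩
  one_smul x := by
    obtain ⟨v, q⟩ := x
    change (⟨v, (1 : Γ) • q⟩ : Vx S) = ⟨v, q⟩
    rw [one_smul]
  mul_smul g h x := by
    obtain ⟨v, q⟩ := x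
    change (⟨v, (g * h) • q⟩ : Vx S) = ⟨v, g • h • q⟩
    rw [mul_smul]

theorem smul_pt (g h : Γ) (v : S.V) : g • pt S v h = pt S v (g * h) := rfl

theorem stab_pt {v : S.V} {g h : Γ} : h • pt S v g = pt S v g ↔ g⁻¹ * h * g ∈ S.G v := by
  rw [smul_pt, eq_comm, pt_eq, mul_assoc]

/-- the edges: the translates of `f` -/
def XF (f : S.E) : SimpleGraph (Vx S) where
  Adj x y := x ≠ y ∧ ∃ g, (x = pt S (S.a f) g ∧ y = pt S (S.b f) (g * S.s f)) ∨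
    (y = pt S (S.a f) g ∧ x = pt S (S.b f) (g * S.s f))
  symm := ⟨by
    rintro x y ⟨h, g, h1 | h1⟩
    · exact ⟨h.symm, g, Or.inr h1⟩
    · exact ⟨h.symm, g, Or.inl h1⟩⟩
  loopless := ⟨fun x h => h.1 rfl⟩

theorem XF_adj {f : S.E} {x y : Vx S} : (XF S f).Adj x y ↔ x ≠ y ∧
    ∃ g, (x = pt S (S.a f) g ∧ y = pt S (S.b f) (g * S.s f)) ∨
    (y = pt S (S.a f) g ∧ x = pt S (S.b f) (g * S.s f)) := Iff.rfl

theorem XF_act {f : S.E} (g : Γ) (x y : Vx S) (h : (XF S f).Adj x y) :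
    (XF S f).Adj (g • x) (g • y) := by
  obtain ⟨h0, h, ⟨rfl, rfl⟩ | ⟨rfl, rfl⟩⟩ := h
  · refine ⟨fun e => h0 (MulAction.injective g e), g * h, Or.inl ⟨?_, ?_⟩⟩
    · rw [smul_pt]
    · rw [smul_pt, mul_assoc]
  · refine ⟨fun e => h0 (MulAction.injective g e), g * h, Or.inr ⟨?_, ?_⟩⟩
    · rw [smul_pt]
    · rw [smul_pt, mul_assoc]

end vx

/-- a bending of the splitting `S` at the edge `f` -/
structure Bn {Γ : Type} [Group Γ] (S : GG Γ) (f : S.E) (k : Type) [Field k] where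
  /-- the representation -/
  m : Γ →* SpecialLinearGroup (Fin 2) k
  /-- the bent representation -/
  r : Γ →* SpecialLinearGroup (Fin 2) (LaurentPolynomial k)
  /-- the gauge -/
  δ : S.V → SpecialLinearGroup (Fin 2) (LaurentPolynomial k)
  hr : ∀ v, ∀ x ∈ S.G v, r x = δ v * mC (m x) * (δ v)⁻¹
  hs : r (S.s f) = δ (S.a f) * (DT * mC (m (S.s f))) * (δ (S.b f))⁻¹
  sp : ∀ x ∈ S.G (S.a f), (m x).1 1 0 = 0 → x ∈ S.C f
  sm : ∀ x ∈ S.G (S.b f), (m (S.s f * x * (S.s f)⁻¹)).1 0 1 = 0 → S.s f * x * (S.s f)⁻¹ ∈ S.C f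
  sl : S.a f = S.b f → ∀ x ∈ S.G (S.a f), (m (x * (S.s f)⁻¹)).1 1 1 ≠ 0

namespace Bn

variable {Γ : Type} [Group Γ] {S : GG Γ} {f : S.E} {k : Type} [Field k] (B : Bn S f k)

/-- the height -/
noncomputable def hF (x : Vx S) : WithBot ℤ :=
  Quotient.liftOn' x.2 (fun g => ht (B.r g * B.δ x.1).1) (by
    intro g h hgh
    have h1 : g⁻¹ * h ∈ S.G x.1 := QuotientGroup.leftRel_apply.1 hgh
    have h2 : B.r h * B.δ x.1 = B.r g * B.δ x.1 * mC (B.m (g⁻¹ * h)) := by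
      have h3 : B.r h = B.r g * B.r (g⁻¹ * h) := by rw [← map_mul]; congr 1; group
      rw [h3, B.hr _ _ h1]
      group
    change ht (B.r g * B.δ x.1).1 = ht (B.r h * B.δ x.1).1
    rw [h2]
    exact (ht_mul_mC (B.r g * B.δ x.1).1 _).symm)

theorem hF_pt (v : S.V) (g : Γ) : B.hF (pt S v g) = ht (B.r g * B.δ v).1 := rfl

theorem hF_fwd {g x : Γ} (hx : x ∈ S.G (S.a f)) : B.hF (pt S (S.b f) (g * x * S.s f)) =
    ht ((B.r g * B.δ (S.a f)).1 * (mC (B.m x)).1 * (DT (k := k)).1 * (mC (B.m (S.s f))).1) := by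
  rw [hF_pt]
  have h : B.r (g * x * S.s f) * B.δ (S.b f) =
      (B.r g * B.δ (S.a f)) * mC (B.m x) * DT * mC (B.m (S.s f)) := by
    rw [map_mul, map_mul, B.hr _ _ hx, B.hs]
    group
  rw [h]
  rfl

theorem hF_bwd {g x : Γ} (hx : x ∈ S.G (S.b f)) : B.hF (pt S (S.a f) (g * x * (S.s f)⁻¹)) =
    ht ((B.r g * B.δ (S.b f)).1 * (mC (B.m (x * (S.s f)⁻¹))).1 * ((DT (k := k))⁻¹).1) := by
  rw [hF_pt]
  have h : B.r (g * x * (S.s f)⁻¹) * B.δ (S.a f) =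
      (B.r g * B.δ (S.b f)) * mC (B.m (x * (S.s f)⁻¹)) * DT⁻¹ := by
    rw [map_mul, map_mul, map_mul, map_mul, map_inv, map_inv, map_inv, B.hr _ _ hx, B.hs]
    group
  rw [h]
  rfl

theorem ne_zero (A : SpecialLinearGroup (Fin 2) (LaurentPolynomial k)) : A.1 ≠ 0 := by
  intro h
  have h1 := A.2
  rw [h, Matrix.det_zero] at h1
  exact zero_ne_one h1

theorem mul10 (x y : Γ) : (B.m (x⁻¹ * y)).1 1 0 =
    (B.m x).1 0 0 * (B.m y).1 1 0 - (B.m x).1 1 0 * (B.m y).1 0 0 := by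
  rw [map_mul, map_inv, sl_mul, (sl_inv _).2.2.1, (sl_inv _).2.2.2]
  ring

theorem mul01 (x y : Γ) : (B.m (x⁻¹ * y)).1 0 1 =
    - ((B.m x).1 0 1 * (B.m y).1 1 1 - (B.m x).1 1 1 * (B.m y).1 0 1) := by
  rw [map_mul, map_inv, sl_mul, (sl_inv _).1, (sl_inv _).2.1]
  ring

theorem mul11 (x y : Γ) : (B.m (x⁻¹ * y)).1 1 1 =
    (B.m x).1 0 0 * (B.m y).1 1 1 - (B.m x).1 1 0 * (B.m y).1 0 1 := by
  rw [map_mul, map_inv, sl_mul, (sl_inv _).2.2.1, (sl_inv _).2.2.2]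
  ring

/-- the neighbours of a vertex -/
theorem nbr {v : S.V} {g : Γ} {y : Vx S} (h : (XF S f).Adj (pt S v g) y) :
    (v = S.a f ∧ ∃ x ∈ S.G (S.a f), y = pt S (S.b f) (g * x * S.s f)) ∨
    (v = S.b f ∧ ∃ x ∈ S.G (S.b f), y = pt S (S.a f) (g * x * (S.s f)⁻¹)) := by
  obtain ⟨-, g', ⟨h1, h2⟩ | ⟨h1, h2⟩⟩ := h
  · have hv := pt_idx S h1
    subst hv
    rw [pt_eq] at h1
    refine Or.inl ⟨rfl, g⁻¹ * g', h1, ?_⟩
    rw [h2]
    congr 1
    group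
  · have hv := pt_idx S h2
    subst hv
    rw [pt_eq] at h2
    refine Or.inr ⟨rfl, _, h2, ?_⟩
    rw [h1]
    congr 1
    group

/-- **The Bass-Serre graph of one edge is a forest.** -/
theorem acyclic {k : Type} [Field k] (B : Bn S f k) : (XF S f).IsAcyclic := by
  refine acyclic_of_ht _ B.hF ?_
  intro x y z hxy hxz hy hz
  obtain ⟨v, g, rfl⟩ := pt_surj S x
  obtain ⟨n, hn, hn0⟩ := exists_ht (ne_zero (B.r g * B.δ v))
  rcases nbr hxy with ⟨hv, x1, h1, e1⟩ | ⟨hv, x1, h1, e1⟩ <;>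
    rcases nbr hxz with ⟨hv', x2, h2, e2⟩ | ⟨hv', x2, h2, e2⟩
  · subst hv
    rw [e1, B.hF_fwd h1, hF_pt] at hy
    rw [e2, B.hF_fwd h2, hF_pt] at hz
    have k1 := step_fwd hn _ _ hy
    have k2 := step_fwd hn _ _ hz
    have k3 := ker_det hn0 k1 k2
    rw [← mul10] at k3
    have k4 := B.sp _ ((S.G (S.a f)).mul_mem ((S.G (S.a f)).inv_mem h1) h2) k3
    rw [e1, e2, pt_eq]
    have k5 := S.Cb f _ k4
    have k6 : (g * x1 * S.s f)⁻¹ * (g * x2 * S.s f) = (S.s f)⁻¹ * (x1⁻¹ * x2) * S.s f := by group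
    rw [k6]
    exact k5
  · exfalso
    rw [hv] at hn hn0 hy hz
    have hab : S.a f = S.b f := hv.symm.trans hv'
    rw [e1, B.hF_fwd h1, hF_pt] at hy
    rw [e2, B.hF_bwd h2, hF_pt] at hz
    rw [← hab] at hz
    have k1 := step_fwd hn _ _ hy
    have k2 := step_bwd hn _ hz
    have k3 := ker_det hn0 k1 k2
    rw [← mul11] at k3
    rw [← hab] at h2
    apply B.sl hab (x1⁻¹ * x2) ((S.G (S.a f)).mul_mem ((S.G (S.a f)).inv_mem h1) h2)
    rw [mul_assoc]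
    exact k3
  · exfalso
    rw [hv'] at hn hn0 hy hz
    have hab : S.a f = S.b f := hv'.symm.trans hv
    rw [e1, B.hF_bwd h1, hF_pt] at hy
    rw [e2, B.hF_fwd h2, hF_pt] at hz
    rw [← hab] at hy
    have k1 := step_bwd hn _ hy
    have k2 := step_fwd hn _ _ hz
    have k3 := ker_det hn0 k2 k1
    rw [← mul11] at k3
    rw [← hab] at h1
    apply B.sl hab (x2⁻¹ * x1) ((S.G (S.a f)).mul_mem ((S.G (S.a f)).inv_mem h2) h1)
    rw [mul_assoc]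
    exact k3
  · subst hv
    rw [e1, B.hF_bwd h1, hF_pt] at hy
    rw [e2, B.hF_bwd h2, hF_pt] at hz
    have k1 := step_bwd hn _ hy
    have k2 := step_bwd hn _ hz
    have k3 := ker_det hn0 k1 k2
    have k4 : (B.m ((x1 * (S.s f)⁻¹)⁻¹ * (x2 * (S.s f)⁻¹))).1 0 1 = 0 := by
      rw [mul01, k3, neg_zero]
    have k5 : (x1 * (S.s f)⁻¹)⁻¹ * (x2 * (S.s f)⁻¹) = S.s f * (x1⁻¹ * x2) * (S.s f)⁻¹ := by group
    rw [k5] at k4
    have k6 := B.sm _ ((S.G (S.b f)).mul_mem ((S.G (S.b f)).inv_mem h1) h2) k4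
    rw [e1, e2, pt_eq]
    have k7 : (g * x1 * (S.s f)⁻¹)⁻¹ * (g * x2 * (S.s f)⁻¹) =
        S.s f * (x1⁻¹ * x2) * (S.s f)⁻¹ := by group
    rw [k7]
    exact S.Ca f k6

end Bn

end Pool.Agent.SuH
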