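import Mathlib

/-!
# MP_305fdd_al, closed surface groups: forests from heights, and degrees of Laurent matrices
-/

set_option autoImplicit false

namespace Pool.Agent.SuH

open Matrix LaurentPolynomial

/-- a graph in which every vertex has at most one neighbour of height at most its own is a forest -/
theorem acyclic_of_ht {V α : Type*} [LinearOrder α] (X : SimpleGraph V) (h : V → α)
    (H : ∀ x y z, X.Adj x y → X.Adj x z → h y ≤ h x → h z ≤ h x → y = z) : X.IsAcyclic := by
  classical
  intro v c hc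
  obtain ⟨x, hx, hmax⟩ : ∃ x ∈ c.support, ∀ y ∈ c.support, h y ≤ h x := by
    have hne : c.support.toFinset.Nonempty := ⟨v, by simp⟩
    obtain ⟨x, hx, hm⟩ := Finset.exists_max_image c.support.toFinset h hne
    exact ⟨x, by simpa using hx, fun y hy => hm y (by simpa using hy)⟩
  have hc' : (c.rotate x hx).IsCycle := by simpa using hc
  have hs : ∀ y ∈ (c.rotate x hx).support, y ∈ c.support := by
    intro y hy
    simpa using hy
  have h1 := (c.rotate x hx).adj_snd hc'.not_nil
  have h2 := (c.rotate x hx).adj_penultimate hc'.not_nil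
  apply hc'.snd_ne_penultimate
  exact H x _ _ h1 h2.symm (hmax _ (hs _ (SimpleGraph.Walk.getVert_mem_support _ _)))
    (hmax _ (hs _ (SimpleGraph.Walk.getVert_mem_support _ _)))

section deg

variable {k : Type} [Field k]

/-- matrices over the Laurent polynomials -/
abbrev LM (k : Type) [Field k] := Matrix (Fin 2) (Fin 2) (LaurentPolynomial k)

/-- the coefficient of `T ^ n` -/
def cf (M : LM k) (n : ℤ) : Matrix (Fin 2) (Fin 2) k := fun i j => (M i j).coeff n

/-- the degree -/
noncomputable def ht (M : LM k) : WithBot ℤ :=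
  Finset.univ.sup fun p : Fin 2 × Fin 2 => (M p.1 p.2).coeff.support.max

theorem ht_le {M : LM k} {n : ℤ} : ht M ≤ (n : WithBot ℤ) ↔ ∀ m, n < m → cf M m = 0 := by
  unfold ht
  rw [Finset.sup_le_iff]
  constructor
  · intro h m hm
    ext i j
    have h1 := h (i, j) (Finset.mem_univ _)
    rw [Finset.max_le_iff] at h1
    by_contra h2
    have h3 := h1 m (by
      rw [Finsupp.mem_support_iff]
      exact h2)
    rw [WithBot.coe_le_coe] at h3
    omega
  · rintro h ⟨i, j⟩ -
    rw [Finset.max_le_iff]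
    intro m hm
    rw [Finsupp.mem_support_iff] at hm
    rw [WithBot.coe_le_coe]
    by_contra h1
    apply hm
    have := congrFun (congrFun (h m (by omega)) i) j
    exact this

theorem exists_ht {M : LM k} (hM : M ≠ 0) : ∃ n : ℤ, ht M = n ∧ cf M n ≠ 0 := by
  rcases hb : ht M with _ | n
  · exfalso
    apply hM
    ext i j n
    have h1 : ht M ≤ ((n - 1 : ℤ) : WithBot ℤ) := by
      rw [hb]
      exact bot_le
    have h2 := ht_le.1 h1 n (by omega)
    exact congrFun (congrFun h2 i) j
  · refine ⟨n, rfl, fun h0 => ?_⟩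
    have h1 : ht M ≤ ((n - 1 : ℤ) : WithBot ℤ) := by
      rw [ht_le]
      intro m hm
      rcases eq_or_lt_of_le (show n ≤ m by omega) with h | h
      · rw [← h]
        exact h0
      · exact ht_le.1 (show ht M ≤ ((n : ℤ) : WithBot ℤ) by rw [hb]; rfl) m h
    rw [hb] at h1
    have h2 : ((n : ℤ) : WithBot ℤ) ≤ ((n - 1 : ℤ) : WithBot ℤ) := h1
    rw [WithBot.coe_le_coe] at h2
    omega

theorem coeff_mul_C (f : LaurentPolynomial k) (a : k) (n : ℤ) :
    (f * LaurentPolynomial.C a).coeff n = f.coeff n * a := by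
  rw [← LaurentPolynomial.single_eq_C]
  exact AddMonoidAlgebra.coeff_mul_single_zero _ _ _

theorem coeff_mul_T (f : LaurentPolynomial k) (m n : ℤ) :
    (f * LaurentPolynomial.T m).coeff n = f.coeff (n - m) := by
  unfold LaurentPolynomial.T
  rw [AddMonoidAlgebra.coeff_mul_single_eq_coeff_mul (n - m), mul_one]
  intro m' _
  constructor <;> intro h <;> omega

/-- constant matrices -/
noncomputable def mC : SpecialLinearGroup (Fin 2) k →* SpecialLinearGroup (Fin 2) (LaurentPolynomial k) :=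
  SpecialLinearGroup.map LaurentPolynomial.C

/-- the diagonal matrix `(T, T⁻¹)` -/
noncomputable def DT : SpecialLinearGroup (Fin 2) (LaurentPolynomial k) :=
  ⟨!![LaurentPolynomial.T 1, 0; 0, LaurentPolynomial.T (-1)], by
    rw [Matrix.det_fin_two_of, mul_zero, sub_zero, ← LaurentPolynomial.T_add]
    exact LaurentPolynomial.T_zero⟩

theorem mC_apply (B : SpecialLinearGroup (Fin 2) k) (i j : Fin 2) :
    (mC B).1 i j = LaurentPolynomial.C (B.1 i j) := rfl

theorem cf_mul_mC (M : LM k) (B : SpecialLinearGroup (Fin 2) k) (n : ℤ) :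
    cf (M * (mC B).1) n = cf M n * B.1 := by
  ext i j
  simp only [cf, Matrix.mul_apply, Fin.sum_univ_two, mC_apply]
  rw [AddMonoidAlgebra.coeff_add, Finsupp.add_apply, coeff_mul_C, coeff_mul_C]

theorem ht_mul_mC_le (M : LM k) (B : SpecialLinearGroup (Fin 2) k) : ht (M * (mC B).1) ≤ ht M := by
  rcases eq_or_ne M 0 with h | h
  · rw [h, zero_mul]
  · obtain ⟨n, h1, -⟩ := exists_ht h
    rw [h1, ht_le]
    intro m hm
    rw [cf_mul_mC, ht_le.1 h1.le m hm, zero_mul]

theorem ht_mul_mC (M : LM k) (B : SpecialLinearGroup (Fin 2) k) : ht (M * (mC B).1) = ht M := by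
  refine le_antisymm (ht_mul_mC_le M B) ?_
  have h := ht_mul_mC_le (M * (mC B).1) B⁻¹
  have h0 : mC B * mC B⁻¹ = 1 := by rw [← map_mul, mul_inv_cancel, map_one]
  have h2 : (mC B).1 * (mC B⁻¹).1 = 1 := congrArg Subtype.val h0
  have h1 : M * (mC B).1 * (mC B⁻¹).1 = M := by
    rw [Matrix.mul_assoc, h2, Matrix.mul_one]
  rwa [h1] at h

theorem cf_mul_DT_0 (M : LM k) (n : ℤ) (i : Fin 2) :
    cf (M * (DT (k := k)).1) (n + 1) i 0 = cf M n i 0 := by
  simp only [cf, Matrix.mul_apply, Fin.sum_univ_two, DT]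
  simp only [Matrix.of_apply, Matrix.cons_val', Matrix.cons_val_zero, Matrix.cons_val_one,
    mul_zero, add_zero, Matrix.cons_val_fin_one]
  rw [coeff_mul_T]
  congr 1
  omega

theorem DT_inv : ((DT (k := k))⁻¹).1 = !![LaurentPolynomial.T (-1), 0; 0, LaurentPolynomial.T 1] := by
  have h : ((DT (k := k))⁻¹).1 = (DT (k := k)).1.adjugate := rfl
  rw [h]
  change Matrix.adjugate !![LaurentPolynomial.T 1, 0; 0, LaurentPolynomial.T (-1)] = _
  rw [Matrix.adjugate_fin_two_of, neg_zero]

theorem cf_mul_DT_1 (M : LM k) (n : ℤ) (i : Fin 2) :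
    cf (M * ((DT (k := k))⁻¹).1) (n + 1) i 1 = cf M n i 1 := by
  rw [DT_inv]
  simp only [cf, Matrix.mul_apply, Fin.sum_univ_two]
  simp only [Matrix.of_apply, Matrix.cons_val', Matrix.cons_val_zero, Matrix.cons_val_one,
    mul_zero, zero_add, Matrix.cons_val_fin_one]
  rw [coeff_mul_T]
  congr 1
  omega

/-- a step forward which does not raise the height -/
theorem step_fwd {M : LM k} {n : ℤ} (hn : ht M = n) (B B' : SpecialLinearGroup (Fin 2) k)
    (h : ht (M * (mC B).1 * (DT (k := k)).1 * (mC B').1) ≤ ht M) (i : Fin 2) :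
    (cf M n * B.1) i 0 = 0 := by
  rw [ht_mul_mC, hn] at h
  rw [← cf_mul_mC, ← cf_mul_DT_0, ht_le.1 h (n + 1) (by omega)]
  rfl

/-- a step backward which does not raise the height -/
theorem step_bwd {M : LM k} {n : ℤ} (hn : ht M = n) (B : SpecialLinearGroup (Fin 2) k)
    (h : ht (M * (mC B).1 * ((DT (k := k))⁻¹).1) ≤ ht M) (i : Fin 2) :
    (cf M n * B.1) i 1 = 0 := by
  rw [hn] at h
  rw [← cf_mul_mC, ← cf_mul_DT_1, ht_le.1 h (n + 1) (by omega)]
  rfl

/-- two vectors in the kernel of a nonzero matrix are proportional -/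
theorem ker_det {N : Matrix (Fin 2) (Fin 2) k} (hN : N ≠ 0) {A B : Matrix (Fin 2) (Fin 2) k}
    {p q : Fin 2} (h1 : ∀ i, (N * A) i p = 0) (h2 : ∀ i, (N * B) i q = 0) :
    A 0 p * B 1 q - A 1 p * B 0 q = 0 := by
  by_contra h
  apply hN
  ext i j
  have e1 := h1 i
  have e2 := h2 i
  rw [Matrix.mul_apply, Fin.sum_univ_two] at e1 e2
  have f0 : N i 0 * (A 0 p * B 1 q - A 1 p * B 0 q) = 0 := by
    linear_combination (B 1 q) * e1 - (A 1 p) * e2
  have f1 : N i 1 * (A 0 p * B 1 q - A 1 p * B 0 q) = 0 := by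
    linear_combination (A 0 p) * e2 - (B 0 q) * e1
  fin_cases j
  · exact (mul_eq_zero.1 f0).resolve_right h
  · exact (mul_eq_zero.1 f1).resolve_right h

end deg

end Pool.Agent.SuH
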