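import Pool.Agent.Lib.MP_305fdd_al.Su.Hon.Fix
import Pool.Agent.Lib.MP_305fdd_al.Fr.S.Up

/-!
# MP_305fdd_al, closed surface groups: loops whose edge groups are conjugate in the vertex group

If `s u` (`s` the element of the loop `f`, `u` in the vertex group) conjugates a nontrivial element
of the edge group into the edge group, then `t = s u` commutes with the edge group, the loop may be
replaced by an edge to a new vertex with the abelian group `⟨C f, t⟩`, and Lemma X applies.
-/

set_option autoImplicit false

namespace Pool.Agent.SuH

open Matrix (SpecialLinearGroup)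
open Pool.Agent.FrS Pool.Agent.SuUp Pool.Agent.SuX

variable {Γ : Type} [Group Γ]

/-- the loop `f` is replaced by an edge to a new vertex with the group `⟨C f, t⟩` -/
def lx (S : GG Γ) (f : S.E) (t : Γ) : GG Γ where
  V := Option S.V
  E := S.E
  G w := w.elim (S.C f ⊔ Subgroup.zpowers t) S.G
  a e := some (S.a e)
  b e := if e = f then none else some (S.b e)
  s e := if e = f then 1 else S.s e
  C e := S.C e
  Ca e := S.Ca e
  Cb e := by
    intro c hc
    by_cases h : e = f
    · subst h
      simp only [if_true, inv_one, one_mul, mul_one]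
      exact (le_sup_left : S.C e ≤ _) hc
    · simp only [h, if_false]
      exact S.Cb e c hc

section

variable (S : GG Γ) (f : S.E) (t : Γ)

theorem lx_b_self : (lx S f t).b f = none := if_pos rfl

theorem lx_b_ne {e : S.E} (h : e ≠ f) : (lx S f t).b e = some (S.b e) := if_neg h

theorem lx_s_self : (lx S f t).s f = 1 := if_pos rfl

theorem lx_s_ne {e : S.E} (h : e ≠ f) : (lx S f t).s e = S.s e := if_neg h

theorem lx_out : (lx S f t).Pth (some (S.a f)) none 1 := by
  have h := GG.Pth.ofE (S := lx S f t) f
  rw [lx_b_self, lx_s_self] at h
  exact h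

theorem lx_pth {u : Γ} (hu : u ∈ S.G (S.a f)) (hl : S.a f = S.b f) (ht : t = S.s f * u)
    {v w : S.V} {g : Γ} (h : S.Pth v w g) : (lx S f t).Pth (some v) (some w) g := by
  have hloop : (lx S f t).Pth (some (S.a f)) (some (S.a f)) (S.s f) := by
    have h1 := lx_out S f t
    have h2 : (lx S f t).Pth none none t :=
      GG.Pth.ofG ((le_sup_right : Subgroup.zpowers t ≤ S.C f ⊔ _) (Subgroup.mem_zpowers t))
    have h3 : (lx S f t).Pth (some (S.a f)) (some (S.a f)) u⁻¹ :=
      GG.Pth.ofG (S := lx S f t) (v := some (S.a f)) (inv_mem hu : u⁻¹ ∈ S.G (S.a f))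
    have h4 := ((h1.trans h2).trans h1.symm).trans h3
    have h5 : 1 * t * (1 : Γ)⁻¹ * u⁻¹ = S.s f := by rw [ht]; group
    rwa [h5] at h4
  induction h with
  | one => exact GG.Pth.one _
  | grp _ hx ih => exact GG.Pth.grp (S := lx S f t) ih hx
  | fwd e _ ih =>
    by_cases he : e = f
    · subst he
      have := ih.trans hloop
      rw [hl] at this
      exact this
    · have h1 := GG.Pth.ofE (S := lx S f t) e
      rw [lx_b_ne S f t he, lx_s_ne S f t he] at h1
      exact ih.trans h1
  | bwd e _ ih =>
    by_cases he : e = f
    · subst he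
      rw [← hl] at ih
      exact ih.trans hloop.symm
    · have h1 := GG.Pth.ofE' (S := lx S f t) e
      rw [lx_b_ne S f t he, lx_s_ne S f t he] at h1
      exact ih.trans h1

theorem lx_up (hS : S.UP) {u : Γ} (hu : u ∈ S.G (S.a f)) (hl : S.a f = S.b f)
    (ht : t = S.s f * u) (hc : ∀ c ∈ S.C f, t * c = c * t) : (lx S f t).UP where
  gen := by
    intro v w g
    have h0 : ∀ v w : S.V, ∀ g, (lx S f t).Pth (some v) (some w) g := fun v w g =>
      lx_pth S f t hu hl ht (hS.gen v w g)
    have h1 := lx_out S f t
    cases v with
    | none =>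
      cases w with
      | none =>
        have := (h1.symm.trans (h0 (S.a f) (S.a f) g)).trans h1
        simpa using this
      | some w =>
        have := h1.symm.trans (h0 (S.a f) w g)
        simpa using this
    | some v =>
      cases w with
      | none =>
        have := (h0 v (S.a f) g).trans h1
        simpa using this
      | some w => exact h0 v w g
  ext := by
    intro R _ _ F'
    -- the element of the torus
    obtain ⟨τ, hτ⟩ : ∃ τ, τ = F'.t f * F'.r none t * (F'.t f)⁻¹ := ⟨_, rfl⟩
    have htn : t ∈ (lx S f t).G none :=
      (le_sup_right : Subgroup.zpowers t ≤ S.C f ⊔ _) (Subgroup.mem_zpowers t)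
    have hcn : ∀ c ∈ S.C f, c ∈ (lx S f t).G none := fun c hc =>
      (le_sup_left : S.C f ≤ S.C f ⊔ _) hc
    have hcm : ∀ c ∈ S.C f, F'.r (some (S.a f)) c = F'.t f * F'.r none c * (F'.t f)⁻¹ := by
      intro c hc
      have h := F'.cm f c hc
      rw [lx_b_self, lx_s_self, inv_one, one_mul, mul_one] at h
      exact h
    have hτc : ∀ c ∈ S.C f, τ * F'.r (some (S.a f)) c = F'.r (some (S.a f)) c * τ := by
      intro c hc'
      have h1 : F'.r none t * F'.r none c = F'.r none c * F'.r none t := by
        rw [← F'.mul none t htn c (hcn c hc'), ← F'.mul none c (hcn c hc') t htn, hc c hc']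
      rw [hcm c hc', hτ]
      calc F'.t f * F'.r none t * (F'.t f)⁻¹ * (F'.t f * F'.r none c * (F'.t f)⁻¹) =
          F'.t f * (F'.r none t * F'.r none c) * (F'.t f)⁻¹ := by group
        _ = F'.t f * (F'.r none c * F'.r none t) * (F'.t f)⁻¹ := by rw [h1]
        _ = _ := by group
    have hmul : ∀ v, ∀ x ∈ S.G v, ∀ y ∈ S.G v,
        F'.r (some v) (x * y) = F'.r (some v) x * F'.r (some v) y := fun v x hx y hy =>
      F'.mul (some v) x hx y hy
    have hone : ∀ v, F'.r (some v) 1 = 1 := by
      intro v
      have := hmul v 1 (one_mem _) 1 (one_mem _)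
      rw [one_mul] at this
      exact left_eq_mul.1 this
    have hinv : ∀ v, ∀ x ∈ S.G v, F'.r (some v) x⁻¹ = (F'.r (some v) x)⁻¹ := by
      intro v x hx
      have := hmul v x⁻¹ (inv_mem hx) x hx
      rw [inv_mul_cancel, hone] at this
      exact eq_inv_of_mul_eq_one_left this.symm
    let F : GG.Fam S (SpecialLinearGroup (Fin 2) R) :=
      { r := fun v => F'.r (some v)
        t := fun e => if e = f then τ * (F'.r (some (S.a f)) u)⁻¹ else F'.t e
        mul := hmul
        cm := by
          intro e c hc'
          by_cases he : e = f
          · subst he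
            rw [if_pos rfl]
            have h1 : (S.s e)⁻¹ * c * S.s e = u * c * u⁻¹ := by
              have h2 : S.s e = t * u⁻¹ := by rw [ht]; group
              have h3 : t⁻¹ * c * t = c := by
                rw [mul_assoc, ← hc c hc']
                group
              rw [h2]
              calc (t * u⁻¹)⁻¹ * c * (t * u⁻¹) = u * (t⁻¹ * c * t) * u⁻¹ := by group
                _ = _ := by rw [h3]
            have hca : c ∈ S.G (S.a e) := S.Ca e hc'
            rw [h1, ← hl, hmul _ _ (mul_mem hu hca) _ (inv_mem hu), hmul _ _ hu _ hca, hinv _ _ hu]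
            calc F'.r (some (S.a e)) c = (F'.r (some (S.a e)) c * τ) * τ⁻¹ := by group
              _ = (τ * F'.r (some (S.a e)) c) * τ⁻¹ := by rw [hτc c hc']
              _ = _ := by group
          · rw [if_neg he]
            have h := F'.cm e c hc'
            rw [lx_b_ne S f t he, lx_s_ne S f t he] at h
            exact h }
    obtain ⟨r, g, hF⟩ := hS.ext R F
    have hv : ∀ v, ∀ x ∈ S.G v, F'.r (some v) x = (g v)⁻¹ * r x * g v := fun v x hx =>
      hF.vtx v x hx
    have hf : τ * (F'.r (some (S.a f)) u)⁻¹ = (g (S.a f))⁻¹ * r (S.s f) * g (S.a f) := by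
      have h := hF.edg f
      rw [← hl] at h
      rw [← h]
      exact (if_pos rfl).symm
    have hrt : τ = (g (S.a f))⁻¹ * r t * g (S.a f) := by
      rw [ht, map_mul]
      have h1 := hv _ _ hu
      calc τ = (τ * (F'.r (some (S.a f)) u)⁻¹) * F'.r (some (S.a f)) u := by group
        _ = ((g (S.a f))⁻¹ * r (S.s f) * g (S.a f)) * ((g (S.a f))⁻¹ * r u * g (S.a f)) := by
          rw [hf, h1]
        _ = _ := by group
    let g' : (lx S f t).V → SpecialLinearGroup (Fin 2) R := fun w =>
      Option.elim w (g (S.a f) * F'.t f) g
    have hg' : g' none = g (S.a f) * F'.t f := rfl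
    refine ⟨r, g', ?_, ?_⟩
    · intro v x hx
      cases v with
      | some v => exact hv v x hx
      | none =>
        rw [hg']
        have hx' : x ∈ S.C f ⊔ Subgroup.zpowers t := hx
        rw [Subgroup.sup_eq_closure] at hx'
        have key : ∀ x (hx : x ∈ Subgroup.closure ((S.C f : Set Γ) ∪ (Subgroup.zpowers t : Set Γ))),
            F'.r none x = (g (S.a f) * F'.t f)⁻¹ * r x * (g (S.a f) * F'.t f) := by
          intro x hx
          have hmem : ∀ y ∈ Subgroup.closure ((S.C f : Set Γ) ∪ (Subgroup.zpowers t : Set Γ)),
              y ∈ (lx S f t).G none := by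
            intro y hy
            rw [← Subgroup.sup_eq_closure] at hy
            exact hy
          have hmn : ∀ x ∈ (lx S f t).G none, ∀ y ∈ (lx S f t).G none,
              F'.r none (x * y) = F'.r none x * F'.r none y := fun x hx y hy => F'.mul none x hx y hy
          have h1n : F'.r none 1 = 1 := by
            have := hmn 1 (one_mem _) 1 (one_mem _)
            rw [one_mul] at this
            exact left_eq_mul.1 this
          have hin : ∀ x ∈ (lx S f t).G none, F'.r none x⁻¹ = (F'.r none x)⁻¹ := by
            intro x hx
            have := hmn x⁻¹ (inv_mem hx) x hx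
            rw [inv_mul_cancel, h1n] at this
            exact eq_inv_of_mul_eq_one_left this.symm
          have hgen : ∀ y, (y ∈ S.C f ∨ y = t) →
              F'.r none y = (g (S.a f) * F'.t f)⁻¹ * r y * (g (S.a f) * F'.t f) := by
            rintro y (hy | rfl)
            · have h1 := hcm y hy
              rw [hv _ _ (S.Ca f hy)] at h1
              calc F'.r none y = (F'.t f)⁻¹ * (F'.t f * F'.r none y * (F'.t f)⁻¹) * F'.t f := by group
                _ = (F'.t f)⁻¹ * ((g (S.a f))⁻¹ * r y * g (S.a f)) * F'.t f := by rw [h1]
                _ = _ := by group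
            · calc F'.r none y = (F'.t f)⁻¹ * (F'.t f * F'.r none y * (F'.t f)⁻¹) * F'.t f := by group
                _ = (F'.t f)⁻¹ * ((g (S.a f))⁻¹ * r y * g (S.a f)) * F'.t f := by rw [← hτ, hrt]
                _ = _ := by group
          have hpow : ∀ n : ℕ, F'.r none (t ^ n) =
              (g (S.a f) * F'.t f)⁻¹ * r (t ^ n) * (g (S.a f) * F'.t f) := by
            intro n
            induction n with
            | zero => rw [pow_zero, h1n, map_one]; group
            | succ n ih =>
              rw [pow_succ, hmn _ (pow_mem htn n) _ htn, ih, hgen t (Or.inr rfl), map_mul]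
              group
          induction hx using Subgroup.closure_induction with
          | mem y hy =>
            rcases hy with hy | hy
            · exact hgen y (Or.inl hy)
            · obtain ⟨n, rfl⟩ := Subgroup.mem_zpowers_iff.1 hy
              cases n with
              | ofNat n =>
                have := hpow n
                simpa using this
              | negSucc n =>
                have h1 := hpow (n + 1)
                rw [zpow_negSucc, hin _ (pow_mem htn _), h1, map_inv]
                group
          | one => rw [h1n, map_one]; group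
          | mul y z hy hz ihy ihz =>
            rw [hmn _ (hmem _ hy) _ (hmem _ hz), ihy, ihz, map_mul]
            group
          | inv y hy ih =>
            rw [hin _ (hmem _ hy), ih, map_inv]
            group
        exact key x hx'
    · have key : ∀ e : S.E, F'.t e = (g' (some (S.a e)))⁻¹ * r ((lx S f t).s e) *
          g' ((lx S f t).b e) := by
        intro e
        by_cases he : e = f
        · rw [he, lx_b_self, lx_s_self, hg']
          change F'.t f = (g (S.a f))⁻¹ * r 1 * (g (S.a f) * F'.t f)
          rw [map_one]
          group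
        · rw [lx_b_ne S f t he, lx_s_ne S f t he]
          have h := hF.edg e
          have h2 : F.t e = F'.t e := if_neg he
          rw [h2] at h
          exact h
      exact key

end

end Pool.Agent.SuH
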