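import Pool.Agent.Lib.MP_305fdd_al.Su.Hon.NL

/-!
# MP_305fdd_al, closed surface groups: nontrivial elements fix at most one edge of the forest
-/

set_option autoImplicit false

namespace Pool.Agent.SuH

open Matrix (SpecialLinearGroup)
open Pool.Agent.FrS Pool.Agent.SuUp Pool.Agent.SuX

variable {Γ : Type} [Group Γ]

/-- the vertex groups of the ends of an edge meet in the edge group -/
theorem Bn.inter {S : GG Γ} {f : S.E} {k : Type} [Field k] (B : Bn S f k) {x : Γ}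
    (hx : x ∈ S.G (S.a f)) (hx' : (S.s f)⁻¹ * x * S.s f ∈ S.G (S.b f)) : x ∈ S.C f := by
  apply B.sp x hx
  have h1 := B.hr _ _ hx
  have h2 := B.hr _ _ hx'
  simp only [map_mul, map_inv, B.hs, h1] at h2
  have h3 : mC (B.m x) * DT = DT * mC (B.m x) := by
    have e1 : (B.δ (S.a f) * (DT * mC (B.m (S.s f))) * (B.δ (S.b f))⁻¹) *
        ((B.δ (S.a f) * (DT * mC (B.m (S.s f))) * (B.δ (S.b f))⁻¹)⁻¹ *
          (B.δ (S.a f) * mC (B.m x) * (B.δ (S.a f))⁻¹) *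
          (B.δ (S.a f) * (DT * mC (B.m (S.s f))) * (B.δ (S.b f))⁻¹)) =
        (B.δ (S.a f) * (DT * mC (B.m (S.s f))) * (B.δ (S.b f))⁻¹) *
        (B.δ (S.b f) * ((mC (B.m (S.s f)))⁻¹ * mC (B.m x) * mC (B.m (S.s f))) *
          (B.δ (S.b f))⁻¹) := by
      rw [h2]
    have e2 : B.δ (S.a f) * (mC (B.m x) * DT) * (mC (B.m (S.s f)) * (B.δ (S.b f))⁻¹) =
        B.δ (S.a f) * (DT * mC (B.m x)) * (mC (B.m (S.s f)) * (B.δ (S.b f))⁻¹) := by
      calc B.δ (S.a f) * (mC (B.m x) * DT) * (mC (B.m (S.s f)) * (B.δ (S.b f))⁻¹) =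
          (B.δ (S.a f) * (DT * mC (B.m (S.s f))) * (B.δ (S.b f))⁻¹) *
          ((B.δ (S.a f) * (DT * mC (B.m (S.s f))) * (B.δ (S.b f))⁻¹)⁻¹ *
            (B.δ (S.a f) * mC (B.m x) * (B.δ (S.a f))⁻¹) *
            (B.δ (S.a f) * (DT * mC (B.m (S.s f))) * (B.δ (S.b f))⁻¹)) := by group
        _ = _ := e1
        _ = _ := by group
    exact mul_left_cancel (mul_right_cancel e2)
  have h4 : (mC (B.m x) * DT).1 1 0 = (DT * mC (B.m x)).1 1 0 := by rw [h3]
  have h5 : (mC (B.m x) * DT).1 1 0 = LaurentPolynomial.C ((B.m x).1 1 0) *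
      LaurentPolynomial.T 1 := by
    change ((mC (B.m x)).1 * (DT (k := k)).1) 1 0 = _
    rw [Matrix.mul_apply, Fin.sum_univ_two]
    change LaurentPolynomial.C ((B.m x).1 1 0) * LaurentPolynomial.T 1 +
      LaurentPolynomial.C ((B.m x).1 1 1) * 0 = _
    rw [mul_zero, add_zero]
  have h6 : (DT * mC (B.m x)).1 1 0 = LaurentPolynomial.C ((B.m x).1 1 0) *
      LaurentPolynomial.T (-1) := by
    change ((DT (k := k)).1 * (mC (B.m x)).1) 1 0 = _
    rw [Matrix.mul_apply, Fin.sum_univ_two]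
    change 0 * LaurentPolynomial.C ((B.m x).1 0 0) +
      LaurentPolynomial.T (-1) * LaurentPolynomial.C ((B.m x).1 1 0) = _
    rw [zero_mul, zero_add, mul_comm]
  rw [h5, h6] at h4
  have h7 := congrArg (fun p : LaurentPolynomial k => p.coeff 1) h4
  simp only [coeff_mul_T, LaurentPolynomial.C_apply] at h7
  rw [if_pos (by norm_num), if_neg (by norm_num)] at h7
  exact h7

section

variable {F : Type} [Field F] [Algebra (ZMod 2) F] {ρ : Γ →* SpecialLinearGroup (Fin 2) F}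

/-- elements which conjugate a nontrivial element of the edge group into the edge group commute with
the edge group -/
theorem cen_of_conj (htor : Tor Γ) {C : Subgroup Γ} (hab : ∀ x ∈ C, ∀ y ∈ C, x * y = y * x)
    {u c : Γ} (hc : c ∈ C) (hc1 : c ≠ 1) (h : u * c * u⁻¹ ∈ C) : ∀ d ∈ C, u * d = d * u := by
  have h6 : u⁻¹ * c = c * u⁻¹ := by
    apply htor.conj u⁻¹ c hc1
    rw [inv_inv]
    exact hab _ h c hc
  have h7 : u * c = c * u := by
    calc u * c = u * (c * u⁻¹) * u := by group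
      _ = u * (u⁻¹ * c) * u := by rw [h6]
      _ = c * u := by group
  intro d hd
  exact htor.trans u c d hc1 h7 (hab c hc d hd)

/-- **Lemma X excludes loops whose edge groups are conjugate in the vertex group.** -/
theorem nl (hinj : Function.Injective ρ) (hT : ∀ g, tr ρ g = 0 → g = 1) (hLX : LX ρ) {S : GG Γ}
    (hS : Sat S) (f : S.E) (hl : S.a f = S.b f) {u : Γ} (hu : u ∈ S.G (S.a f)) {c : Γ}
    (hc : c ∈ S.C f) (hc1 : c ≠ 1) : (S.s f * u) * c * (S.s f * u)⁻¹ ∉ S.C f := by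
  intro h
  have htor := tor_of hinj hT
  obtain ⟨t, ht⟩ : ∃ t, t = S.s f * u := ⟨_, rfl⟩
  rw [← ht] at h
  have hcen := cen_of_conj htor (hS.ab f) hc hc1 h
  have hup := lx_up S f t hS.up hu hl ht hcen
  have hcomm : ∀ y ∈ (lx S f t).G none, ∀ z ∈ (lx S f t).G none, y * z = z * y := by
    refine comm_sup (S.C f) (Subgroup.zpowers t) (hS.ab f) ?_ ?_
    · intro x hx y hy
      obtain ⟨m, rfl⟩ := Subgroup.mem_zpowers_iff.1 hx
      obtain ⟨n, rfl⟩ := Subgroup.mem_zpowers_iff.1 hy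
      rw [← zpow_add, ← zpow_add, add_comm]
    · intro x hx y hy
      obtain ⟨n, rfl⟩ := Subgroup.mem_zpowers_iff.1 hy
      have h1 : Commute t x := hcen x hx
      exact (h1.zpow_left n).symm.eq
  have hfgV : ∀ v, ((lx S f t).G v).FG := by
    intro v
    cases v with
    | none => exact (hS.fgE f).sup ⟨{t}, by simp [Subgroup.zpowers_eq_closure]⟩
    | some v => exact hS.fgV v
  obtain ⟨-, h2⟩ := hLX.sub (lx S f t) hup hfgV hS.fgE none hcomm (S.C f)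
    (le_sup_left : S.C f ≤ S.C f ⊔ Subgroup.zpowers t)
    (fun e he => absurd he (Option.some_ne_none _))
    (by
      have key : ∀ e : S.E, (lx S f t).b e = none → ∀ c ∈ S.C e,
          ((lx S f t).s e)⁻¹ * c * (lx S f t).s e ∈ S.C f := by
        intro e he c hc
        by_cases h : e = f
        · rw [h] at hc ⊢
          rw [lx_s_self]
          simpa using hc
        · rw [lx_b_ne S f t h] at he
          exact absurd he (Option.some_ne_none _)
      exact key)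
    c hc (fun h => hc1 (hinj (by rw [h, map_one])))
  obtain ⟨n, hn, hn'⟩ := h2 t ((le_sup_right : Subgroup.zpowers t ≤ S.C f ⊔ _)
    (Subgroup.mem_zpowers t))
  obtain ⟨r, w, hr1, hr2⟩ := loop_rep hS.up f hl
  have h3 := hr1 _ _ (S.Ca f hn')
  rw [map_pow, ht, map_mul, hr1 _ _ hu, mul_one, hr2, conj_pow] at h3
  exact DT_pow_ne _ hn (conj_eq_one_iff.1 h3)

/-- nontrivial elements fix at most one edge at every vertex -/
theorem one_edge (hinj : Function.Injective ρ) (hT : ∀ g, tr ρ g = 0 → g = 1) (hLX : LX ρ)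
    {S : GG Γ} (hS : Sat S) (f : S.E) (x y z : Vx S) (hy : (XF S f).Adj x y)
    (hz : (XF S f).Adj x z) (hne : y ≠ z) (w : Γ) (hwx : w • x = x) (hwy : w • y = y)
    (hwz : w • z = z) : w = 1 := by
  obtain ⟨k, _, ⟨B⟩⟩ := exists_bn hinj hT hS f
  have htor := tor_of hinj hT
  obtain ⟨v, g, rfl⟩ := pt_surj S x
  rw [stab_pt] at hwx
  obtain ⟨w0, hw0⟩ : ∃ w0, w0 = g⁻¹ * w * g := ⟨_, rfl⟩
  rw [← hw0] at hwx
  have hw : w = g * w0 * g⁻¹ := by rw [hw0]; group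
  by_contra hw1
  have hw01 : w0 ≠ 1 := by
    intro h
    apply hw1
    rw [hw, h]
    group
  have hcj : ∀ a : Γ, a⁻¹ * w0 * a ≠ 1 := by
    intro a h
    apply hw01
    have : w0 = a * (a⁻¹ * w0 * a) * a⁻¹ := by group
    rw [this, h]
    group
  -- the element of the edge group for a neighbour
  have hF : v = S.a f → ∀ x1 ∈ S.G (S.a f), w • pt S (S.b f) (g * x1 * S.s f) =
      pt S (S.b f) (g * x1 * S.s f) → x1⁻¹ * w0 * x1 ∈ S.C f := by
    intro hv x1 h1 h2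
    rw [stab_pt] at h2
    rw [hv] at hwx
    refine B.inter (mul_mem (mul_mem (inv_mem h1) hwx) h1) ?_
    have e : (S.s f)⁻¹ * (x1⁻¹ * w0 * x1) * S.s f =
        (g * x1 * S.s f)⁻¹ * w * (g * x1 * S.s f) := by rw [hw]; group
    rw [e]
    exact h2
  have hB : v = S.b f → ∀ x1 ∈ S.G (S.b f), w • pt S (S.a f) (g * x1 * (S.s f)⁻¹) =
      pt S (S.a f) (g * x1 * (S.s f)⁻¹) → S.s f * (x1⁻¹ * w0 * x1) * (S.s f)⁻¹ ∈ S.C f := by
    intro hv x1 h1 h2
    rw [stab_pt] at h2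
    rw [hv] at hwx
    have e : (g * x1 * (S.s f)⁻¹)⁻¹ * w * (g * x1 * (S.s f)⁻¹) =
        S.s f * (x1⁻¹ * w0 * x1) * (S.s f)⁻¹ := by rw [hw]; group
    rw [e] at h2
    refine B.inter h2 ?_
    have e2 : (S.s f)⁻¹ * (S.s f * (x1⁻¹ * w0 * x1) * (S.s f)⁻¹) * S.s f = x1⁻¹ * w0 * x1 := by
      group
    rw [e2]
    exact mul_mem (mul_mem (inv_mem h1) hwx) h1
  have hcs : ∀ a : Γ, S.s f * (a⁻¹ * w0 * a) * (S.s f)⁻¹ ≠ 1 := by
    intro a h
    exact hcj a (conj_eq_one_iff.1 h)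
  rcases Bn.nbr hy with ⟨hv, x1, h1, rfl⟩ | ⟨hv, x1, h1, rfl⟩ <;>
    rcases Bn.nbr hz with ⟨hv', x2, h2, rfl⟩ | ⟨hv', x2, h2, rfl⟩
  · have c1 := hF hv x1 h1 hwy
    have c2 := hF hv x2 h2 hwz
    have hm : x2⁻¹ * x1 ∈ S.G (S.a f) := mul_mem (inv_mem h2) h1
    have h3 : x2⁻¹ * x1 ∈ S.C f := by
      apply hS.sa f _ hm
      refine cen_of_conj htor (hS.ab f) c1 (hcj x1) ?_
      have e : x2⁻¹ * x1 * (x1⁻¹ * w0 * x1) * (x2⁻¹ * x1)⁻¹ = x2⁻¹ * w0 * x2 := by group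
      rw [e]
      exact c2
    apply hne
    rw [eq_comm, pt_eq]
    have e : (g * x2 * S.s f)⁻¹ * (g * x1 * S.s f) = (S.s f)⁻¹ * (x2⁻¹ * x1) * S.s f := by group
    rw [e]
    exact S.Cb f _ h3
  · have hab : S.a f = S.b f := hv.symm.trans hv'
    have c1 := hF hv x1 h1 hwy
    have c2 := hB hv' x2 h2 hwz
    have h2' := h2
    rw [← hab] at h2'
    refine nl hinj hT hLX hS f hab (mul_mem (inv_mem h2') h1 : x2⁻¹ * x1 ∈ _) c1 (hcj x1) ?_
    have e : S.s f * (x2⁻¹ * x1) * (x1⁻¹ * w0 * x1) * (S.s f * (x2⁻¹ * x1))⁻¹ =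
        S.s f * (x2⁻¹ * w0 * x2) * (S.s f)⁻¹ := by group
    rw [e]
    exact c2
  · have hab : S.a f = S.b f := hv'.symm.trans hv
    have c1 := hB hv x1 h1 hwy
    have c2 := hF hv' x2 h2 hwz
    have h1' := h1
    rw [← hab] at h1'
    refine nl hinj hT hLX hS f hab (mul_mem (inv_mem h1') h2 : x1⁻¹ * x2 ∈ _) c2 (hcj x2) ?_
    have e : S.s f * (x1⁻¹ * x2) * (x2⁻¹ * w0 * x2) * (S.s f * (x1⁻¹ * x2))⁻¹ =
        S.s f * (x1⁻¹ * w0 * x1) * (S.s f)⁻¹ := by group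
    rw [e]
    exact c1
  · have c1 := hB hv x1 h1 hwy
    have c2 := hB hv x2 h2 hwz
    have hm : x2⁻¹ * x1 ∈ S.G (S.b f) := mul_mem (inv_mem h2) h1
    have h3 : S.s f * (x2⁻¹ * x1) * (S.s f)⁻¹ ∈ S.C f := by
      apply hS.sb f _ hm
      refine cen_of_conj htor (hS.ab f) c1 (hcs x1) ?_
      have e : S.s f * (x2⁻¹ * x1) * (S.s f)⁻¹ * (S.s f * (x1⁻¹ * w0 * x1) * (S.s f)⁻¹) *
          (S.s f * (x2⁻¹ * x1) * (S.s f)⁻¹)⁻¹ = S.s f * (x2⁻¹ * w0 * x2) * (S.s f)⁻¹ := by group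
      rw [e]
      exact c2
    apply hne
    rw [eq_comm, pt_eq]
    have e : (g * x2 * (S.s f)⁻¹)⁻¹ * (g * x1 * (S.s f)⁻¹) =
        S.s f * (x2⁻¹ * x1) * (S.s f)⁻¹ := by group
    rw [e]
    exact S.Ca f h3

/-- the centraliser of a nontrivial element of a stabiliser -/
theorem fix_of_comm (hinj : Function.Injective ρ) (hT : ∀ g, tr ρ g = 0 → g = 1) (hLX : LX ρ)
    {S : GG Γ} (hS : Sat S) (f : S.E) {x : Vx S} {w h : Γ} (hw : w • x = x) (hw1 : w ≠ 1)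
    (hc : h * w = w * h) (hr : (XF S f).Reachable x (h • x)) : h • x = x := by
  obtain ⟨k, _, ⟨B⟩⟩ := exists_bn hinj hT hS f
  exact fix_of_comm' (Bn.acyclic B) (fun g x y h => XF_act S g x y h)
    (fun g x y h => noinv hS.up f g x y h) (one_edge hinj hT hLX hS f) hw hw1 hc hr

end

end Pool.Agent.SuH
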